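import Pool.Agent.Helper78.Dis.Bullet

/-!
# Numerical monoids generated by arithmetic sequences
-/

set_option autoImplicit false

namespace Pool.Agent.Helper78.Dis

/-- The submonoid of `ℕ` generated by `a, a + d, …, a + k d`. -/
def arith (a d k : ℕ) : AddSubmonoid ℕ := AddSubmonoid.closure {x | ∃ i ≤ k, x = a + i * d}

variable {a d k : ℕ}

lemma mem_arith (x : ℕ) : x ∈ arith a d k ↔ ∃ s r, r ≤ k * s ∧ x = s * a + r * d := by
  constructor
  · intro hx
    induction hx using AddSubmonoid.closure_induction with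
    | mem x hx =>
      obtain ⟨i, hi, rfl⟩ := hx
      exact ⟨1, i, by omega, by ring⟩
    | zero => exact ⟨0, 0, by simp, by simp⟩
    | add x y _ _ hx hy =>
      obtain ⟨s, r, h1, rfl⟩ := hx
      obtain ⟨s', r', h1', rfl⟩ := hy
      exact ⟨s + s', r + r', by rw [Nat.mul_add]; omega, by ring⟩
  · rintro ⟨s, r, hr, rfl⟩
    induction s generalizing r with
    | zero =>
      have : r = 0 := by omega
      subst this
      simp
    | succ s ih =>
      rw [Nat.mul_succ] at hr
      have h1 : a + min k r * d ∈ arith a d k :=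
        AddSubmonoid.subset_closure ⟨min k r, min_le_left _ _, rfl⟩
      have h2 := ih (r - min k r) (by omega)
      have h3 := (arith a d k).add_mem h1 h2
      have e : (s + 1) * a + r * d = a + min k r * d + (s * a + (r - min k r) * d) := by
        obtain ⟨c, hc⟩ := Nat.exists_eq_add_of_le (min_le_right k r)
        have : r - min k r = c := by omega
        rw [this]
        nth_rewrite 1 [hc]
        ring
      rw [e]
      exact h3

lemma mem_arith_z (ha : 0 < a) (hcop : Nat.Coprime a d) {x v : ℕ} {U : ℤ} (hv : v < a)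
    (hx : (x : ℤ) = U * a + v * d) : x ∈ arith a d k ↔ (v : ℤ) ≤ k * U := by
  rw [mem_arith]
  constructor
  · rintro ⟨s, r, hr, rfl⟩
    have e : (U - s) * (a : ℤ) = ((r : ℤ) - v) * d := by
      push_cast at hx
      linear_combination -hx
    have hdvd : (a : ℤ) ∣ (r : ℤ) - v := by
      have h1 : (a : ℤ) ∣ ((r : ℤ) - v) * d := ⟨U - s, by rw [← e]; ring⟩
      exact (Nat.isCoprime_iff_coprime.2 hcop).dvd_of_dvd_mul_right h1
    obtain ⟨m, hm⟩ := hdvd
    have ha' : (0 : ℤ) < a := by exact_mod_cast ha
    have hm0 : 0 ≤ m := by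
      by_contra hcon
      push Not at hcon
      have h1 : (a : ℤ) * m ≤ a * (-1) := mul_le_mul_of_nonneg_left (by omega) ha'.le
      have h2 : (v : ℤ) < a := by exact_mod_cast hv
      have h3 : (0 : ℤ) ≤ r := Int.natCast_nonneg _
      linarith
    have hU : U = s + m * d := by
      rw [hm] at e
      have : (a : ℤ) * (U - s) = a * (m * d) := by linear_combination e
      have := mul_left_cancel₀ ha'.ne' this
      linarith
    have h4 : (v : ℤ) ≤ r := by
      have : (0 : ℤ) ≤ a * m := by positivity
      linarith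
    have h5 : (r : ℤ) ≤ k * s := by exact_mod_cast hr
    rw [hU]
    have h6 : (0 : ℤ) ≤ k * (m * d) := by positivity
    linarith
  · intro h
    have hU0 : 0 ≤ U := by
      by_contra hcon
      push Not at hcon
      have h1 : (0 : ℤ) ≤ v := Int.natCast_nonneg _
      rcases Nat.eq_zero_or_pos k with hk | hk
      · subst hk
        have h2 : (v : ℤ) = 0 := by
          simp at h
          omega
        have h3 : (x : ℤ) < 0 := by
          rw [hx, h2]
          have ha' : (0 : ℤ) < a := by exact_mod_cast ha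
          have := mul_neg_of_neg_of_pos hcon ha'
          linarith
        have h4 : (0 : ℤ) ≤ x := Int.natCast_nonneg _
        linarith
      · have hk' : (0 : ℤ) < k := by exact_mod_cast hk
        have := mul_neg_of_pos_of_neg hk' hcon
        linarith
    lift U to ℕ using hU0
    exact ⟨U, v, by exact_mod_cast h, by exact_mod_cast hx⟩

lemma isAt_arith (ha : 0 < a) (hka : k < a) (hcop : Nat.Coprime a d) (x : ℕ) :
    IsAt (arith a d k) x ↔ ∃ i ≤ k, x = a + i * d := by
  constructor
  · rintro ⟨h1, h2, h3⟩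
    obtain ⟨s, r, hr, rfl⟩ := (mem_arith x).1 h1
    rcases Nat.lt_or_ge s 2 with hs | hs
    · have hs' : s = 0 ∨ s = 1 := by omega
      rcases hs' with rfl | rfl
      · exfalso
        have : r = 0 := by omega
        subst this
        simp at h2
      · exact ⟨r, by omega, by ring⟩
    · exfalso
      obtain ⟨s', rfl⟩ : ∃ s', s = s' + 1 := ⟨s - 1, by omega⟩
      rw [Nat.mul_succ] at hr
      have k1 : a + min k r * d ∈ arith a d k :=
        AddSubmonoid.subset_closure ⟨min k r, min_le_left _ _, rfl⟩
      have k2 : s' * a + (r - min k r) * d ∈ arith a d k := by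
        rw [mem_arith]
        exact ⟨s', r - min k r, by omega, rfl⟩
      have e : a + min k r * d + (s' * a + (r - min k r) * d) = (s' + 1) * a + r * d := by
        obtain ⟨c, hc⟩ := Nat.exists_eq_add_of_le (min_le_right k r)
        have : r - min k r = c := by omega
        rw [this]
        nth_rewrite 2 [hc]
        ring
      rcases h3 _ k1 _ k2 e with h | h
      · omega
      · have : 0 < s' * a := Nat.mul_pos (by omega) ha
        omega
  · rintro ⟨i, hi, rfl⟩
    refine ⟨AddSubmonoid.subset_closure ⟨i, hi, rfl⟩, by omega, ?_⟩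
    intro y hy z hz hyz
    by_contra hcon
    push Not at hcon
    obtain ⟨s, r, hr, rfl⟩ := (mem_arith y).1 hy
    obtain ⟨s', r', hr', rfl⟩ := (mem_arith z).1 hz
    have hs : 1 ≤ s := by
      by_contra hc
      have h0 : s = 0 := by omega
      subst h0
      have h1 : r = 0 := by omega
      subst h1
      simp at hcon
    have hs' : 1 ≤ s' := by
      by_contra hc
      have h0 : s' = 0 := by omega
      subst h0
      have h1 : r' = 0 := by omega
      subst h1
      simp at hcon
    have hz : ((i : ℤ) - r - r') * d = (s + s' - 1) * a := by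
      have : ((s * a + r * d + (s' * a + r' * d) : ℕ) : ℤ) = ((a + i * d : ℕ) : ℤ) := by
        exact_mod_cast hyz
      push_cast at this
      linear_combination -this
    have hdvd : (a : ℤ) ∣ (i : ℤ) - r - r' := by
      have h1 : (a : ℤ) ∣ ((i : ℤ) - r - r') * d := ⟨s + s' - 1, by rw [hz]; ring⟩
      exact (Nat.isCoprime_iff_coprime.2 hcop).dvd_of_dvd_mul_right h1
    have hpos : (0 : ℤ) < ((i : ℤ) - r - r') * d := by
      rw [hz]
      apply mul_pos
      · have : (1 : ℤ) ≤ s := by exact_mod_cast hs
        have : (1 : ℤ) ≤ s' := by exact_mod_cast hs'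
        linarith
      · exact_mod_cast ha
    have hpos2 : (0 : ℤ) < (i : ℤ) - r - r' := pos_of_mul_pos_left hpos (Int.natCast_nonneg _)
    have := Int.le_of_dvd hpos2 hdvd
    have h5 : (i : ℤ) ≤ k := by exact_mod_cast hi
    have h6 : (k : ℤ) < a := by exact_mod_cast hka
    omega

/-- The divisibility predicate in coordinates. -/
def Pr (a d k u e t σ : ℕ) : Prop :=
  (((σ + e) % a : ℕ) : ℤ) ≤ k * ((t : ℤ) - u + ((σ + e) / a : ℕ) * d)

lemma dv_arith (ha : 0 < a) (hk : 0 < k) (hcop : Nat.Coprime a d) {N u e : ℕ}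
    (hN : N + e * d = a * u)
    (t σ : ℕ) : Dv (arith a d k) N (a * t + d * σ) ↔ Pr a d k u e t σ := by
  have hdm := Nat.mod_add_div (σ + e) a
  have hlt : (σ + e) % a < a := Nat.mod_lt _ ha
  have hdz : (((σ + e) % a : ℕ) : ℤ) + a * ((σ + e) / a : ℕ) = (σ : ℤ) + e := by
    exact_mod_cast hdm
  have hNz : (N : ℤ) + e * d = a * u := by exact_mod_cast hN
  unfold Pr
  constructor
  · rintro ⟨z, hz, hsum⟩
    have hsz : (N : ℤ) + z = a * t + d * σ := by exact_mod_cast hsum
    have e1 : (z : ℤ) = ((t : ℤ) - u + ((σ + e) / a : ℕ) * d) * a + ((σ + e) % a : ℕ) * d := by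
      linear_combination hsz - hNz - d * hdz
    exact (mem_arith_z ha hcop hlt e1).1 hz
  · intro h
    set U : ℤ := (t : ℤ) - u + ((σ + e) / a : ℕ) * d with hU
    set v := (σ + e) % a with hv
    -- the difference is nonnegative
    have hU0 : 0 ≤ U * a + v * d := by
      have hk' : (0 : ℤ) < k := by exact_mod_cast hk
      have h1 : 0 ≤ (k : ℤ) * U := le_trans (Int.natCast_nonneg _) h
      have h2 : 0 ≤ U := nonneg_of_mul_nonneg_right h1 hk'
      positivity
    obtain ⟨z, hz⟩ := Int.eq_ofNat_of_zero_le hU0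
    refine ⟨z, (mem_arith_z ha hcop hlt hz.symm).2 h, ?_⟩
    have : (N : ℤ) + z = a * t + d * σ := by
      rw [← hz, hU]
      linear_combination hNz + d * hdz
    exact_mod_cast this

lemma sum_gen (S : Multiset ℕ) :
    (S.map (fun i => a + i * d)).sum = a * S.card + d * S.sum := by
  induction S using Multiset.induction_on with
  | empty => simp
  | cons i S ih =>
    rw [Multiset.map_cons, Multiset.sum_cons, ih, Multiset.card_cons, Multiset.sum_cons]
    ring

lemma gen_injective (hd : 0 < d) : Function.Injective (fun i : ℕ => a + i * d) := by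
  intro i j h
  simp only at h
  have h1 : i * d = j * d := by omega
  exact Nat.eq_of_mul_eq_mul_right hd h1

lemma bul_arith_iff (ha : 0 < a) (hk : 0 < k) (hka : k < a) (hd : 0 < d)
    (hcop : Nat.Coprime a d) {N u e : ℕ} (hN : N + e * d = a * u) (S : Multiset ℕ)
    (hS : ∀ i ∈ S, i ≤ k) :
    Bul (arith a d k) N (S.map (fun i => a + i * d)) ↔
      Pr a d k u e S.card S.sum ∧ ∀ i ∈ S, ¬ Pr a d k u e (S.card - 1) (S.sum - i) := by
  have key : ∀ i ∈ S, (¬ Dv (arith a d k) N
      ((S.map (fun i => a + i * d)).erase (a + i * d)).sum ↔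
      ¬ Pr a d k u e (S.card - 1) (S.sum - i)) := by
    intro i hi
    have e1 : (S.map (fun i => a + i * d)).erase (a + i * d) =
        (S.erase i).map (fun i => a + i * d) :=
      (Multiset.map_erase (fun i => a + i * d) (gen_injective hd) i S).symm
    rw [e1, sum_gen, Multiset.card_erase_of_mem hi]
    have e2 : (S.erase i).sum = S.sum - i := by
      have h1 := Multiset.sum_cons i (S.erase i)
      rw [Multiset.cons_erase hi] at h1
      omega
    rw [e2, dv_arith ha hk hcop hN]
    rfl
  constructor
  · rintro ⟨-, h1, h2⟩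
    rw [sum_gen, dv_arith ha hk hcop hN] at h1
    refine ⟨h1, ?_⟩
    intro i hi
    exact (key i hi).1 (h2 _ (Multiset.mem_map_of_mem (fun i => a + i * d) hi))
  · rintro ⟨h1, h2⟩
    refine ⟨?_, ?_, ?_⟩
    · intro x hx
      obtain ⟨i, hi, rfl⟩ := Multiset.mem_map.1 hx
      exact (isAt_arith ha hka hcop _).2 ⟨i, hS i hi, rfl⟩
    · rw [sum_gen, dv_arith ha hk hcop hN]
      exact h1
    · intro x hx
      obtain ⟨i, hi, rfl⟩ := Multiset.mem_map.1 hx
      exact (key i hi).2 (h2 i hi)

lemma exists_gen (ha : 0 < a) (hka : k < a) (hd : 0 < d) (hcop : Nat.Coprime a d)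
    (T : Multiset ℕ) (hT : ∀ x ∈ T, IsAt (arith a d k) x) :
    ∃ S : Multiset ℕ, (∀ i ∈ S, i ≤ k) ∧ T = S.map (fun i => a + i * d) := by
  have hform : ∀ i : ℕ, (a + i * d - a) / d = i := by
    intro i
    rw [Nat.add_sub_cancel_left]
    exact Nat.mul_div_cancel _ hd
  refine ⟨T.map (fun x => (x - a) / d), ?_, ?_⟩
  · intro i hi
    obtain ⟨x, hx, rfl⟩ := Multiset.mem_map.1 hi
    obtain ⟨j, hj, rfl⟩ := (isAt_arith ha hka hcop x).1 (hT x hx)
    rw [hform]
    exact hj
  · rw [Multiset.map_map]
    have : T.map ((fun i => a + i * d) ∘ fun x => (x - a) / d) = T.map id := by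
      apply Multiset.map_congr rfl
      intro x hx
      obtain ⟨j, hj, rfl⟩ := (isAt_arith ha hka hcop x).1 (hT x hx)
      simp only [Function.comp_apply, hform, id_eq]
    rw [this, Multiset.map_id]

end Pool.Agent.Helper78.Dis
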