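import Pool.Agent.Helper78.Dis.Arith

/-!
# The omega function of numerical monoids generated by arithmetic sequences
-/

set_option autoImplicit false

namespace Pool.Agent.Helper78.Dis

variable {a d k : ℕ}

/-- The least `e` with `a ∣ N + e d`. -/
noncomputable def ee (a d N : ℕ) : ℕ := sInf {e : ℕ | a ∣ N + e * d}

/-- The quotient `(N + e d) / a`. -/
noncomputable def uu (a d N : ℕ) : ℕ := (N + ee a d N * d) / a

lemma ee_dvd (ha : 0 < a) (hcop : Nat.Coprime a d) (N : ℕ) : a ∣ N + ee a d N * d := by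
  have hne : {e : ℕ | a ∣ N + e * d}.Nonempty := by
    obtain ⟨s, t, hst⟩ := Nat.isCoprime_iff_coprime.2 hcop
    have ha' : (0 : ℤ) < a := by exact_mod_cast ha
    refine ⟨((-(N : ℤ) * t) % a).toNat, ?_⟩
    have h1 : (((-(N : ℤ) * t) % a).toNat : ℤ) = (-(N : ℤ) * t) % a :=
      Int.toNat_of_nonneg (Int.emod_nonneg _ ha'.ne')
    have h2 := Int.emod_add_mul_ediv (-(N : ℤ) * t) a
    show a ∣ N + ((-(N : ℤ) * t) % a).toNat * d
    rw [← Int.natCast_dvd_natCast]
    push_cast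
    rw [h1]
    refine ⟨N * s - (-(N : ℤ) * t) / a * d, ?_⟩
    linear_combination -N * hst + d * h2
  exact Nat.sInf_mem hne

lemma ee_lt (ha : 0 < a) (hcop : Nat.Coprime a d) (N : ℕ) : ee a d N < a := by
  by_contra hcon
  push Not at hcon
  obtain ⟨c, hc⟩ := Nat.exists_eq_add_of_le hcon
  have h1 := ee_dvd ha hcop N
  rw [hc] at h1
  have h2 : a ∣ N + c * d := by
    have e : N + (a + c) * d = a * d + (N + c * d) := by ring
    rw [e] at h1
    exact (Nat.dvd_add_right (dvd_mul_right _ _)).1 h1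
  have h3 : ee a d N ≤ c := Nat.sInf_le h2
  omega

lemma uu_spec (ha : 0 < a) (hcop : Nat.Coprime a d) (N : ℕ) :
    N + ee a d N * d = a * uu a d N := (Nat.mul_div_cancel' (ee_dvd ha hcop N)).symm

lemma ee_eq (ha : 0 < a) (hcop : Nat.Coprime a d) {N e u : ℕ} (he : e < a)
    (h : N + e * d = a * u) : ee a d N = e ∧ uu a d N = u := by
  have h1 : ee a d N ≤ e := Nat.sInf_le ⟨u, h⟩
  have h2 := uu_spec ha hcop N
  obtain ⟨c, hc⟩ := Nat.exists_eq_add_of_le h1
  have h3 : a ∣ c * d := by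
    have e1 : N + e * d = N + ee a d N * d + c * d := by rw [hc]; ring
    have e2 : a ∣ (N + ee a d N * d) + c * d := ⟨u, by rw [← e1, h]⟩
    exact (Nat.dvd_add_right ⟨_, h2⟩).1 e2
  have h4 : a ∣ c := hcop.dvd_of_dvd_mul_right h3
  have h5 : c = 0 := Nat.eq_zero_of_dvd_of_lt h4 (by omega)
  have h6 : ee a d N = e := by omega
  refine ⟨h6, ?_⟩
  rw [h6] at h2
  rw [h2] at h
  exact Nat.eq_of_mul_eq_mul_left ha h

lemma ee_periodic (N : ℕ) : ee a d (N + a) = ee a d N := by
  unfold ee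
  congr 1
  ext e
  show a ∣ N + a + e * d ↔ a ∣ N + e * d
  have : N + a + e * d = a + (N + e * d) := by ring
  rw [this]
  exact Nat.dvd_add_right (dvd_refl _)

lemma quasi (ha : 0 < a) (hcop : Nat.Coprime a d) (κ : ℕ → ℕ) :
    IsQuasilinear (fun N => uu a d N + κ (ee a d N)) := by
  have ha' : (a : ℚ) ≠ 0 := by positivity
  refine ⟨fun _ => 1 / a, fun N => (ee a d N * d : ℚ) / a + κ (ee a d N), a, ha, fun _ => rfl,
    ?_, ⟨0, one_div_ne_zero ha'⟩, ?_⟩
  · intro N
    simp only [ee_periodic]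
  · intro N
    have h := uu_spec ha hcop N
    have h2 : (N : ℚ) + ee a d N * d = a * uu a d N := by exact_mod_cast h
    push_cast
    field_simp
    linarith

lemma Pr_lt {u e t σ : ℕ} (h : σ + e < a) :
    Pr a d k u e t σ ↔ ((σ + e : ℕ) : ℤ) ≤ k * ((t : ℤ) - u) := by
  unfold Pr
  rw [Nat.mod_eq_of_lt h, Nat.div_eq_of_lt h]
  simp

lemma Pr_ge {u e t σ v : ℕ} (hv : v < a) (h : σ + e = a + v) :
    Pr a d k u e t σ ↔ (v : ℤ) ≤ k * ((t : ℤ) - u + d) := by
  unfold Pr
  have h1 : (σ + e) % a = v := by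
    rw [h, Nat.add_mod_left]
    exact Nat.mod_eq_of_lt hv
  have h2 : (σ + e) / a = 1 := by
    rw [h, Nat.add_div_left _ (by omega), Nat.div_eq_of_lt hv]
  rw [h1, h2]
  simp

/-- The general upper bound for the size of bullets. -/
lemma bul_le (ha : 0 < a) (hk : 0 < k) (hka : k < a) (hd : 0 < d)
    (hcop : Nat.Coprime a d) {N u e Q : ℕ} (hN : N + e * d = a * u) (hQ : a - 1 ≤ k * Q)
    (T : Multiset ℕ) (hT : Bul (arith a d k) N T) : T.card ≤ u + Q := by
  obtain ⟨S, hS, rfl⟩ := exists_gen ha hka hd hcop T hT.1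
  obtain ⟨-, h2⟩ := (bul_arith_iff ha hk hka hd hcop hN S hS).1 hT
  rw [Multiset.card_map]
  by_contra hcon
  push Not at hcon
  obtain ⟨i, hi⟩ := Multiset.card_pos_iff_exists_mem.1 (by omega : 0 < S.card)
  apply h2 i hi
  unfold Pr
  have h3 : (((S.sum - i + e) % a : ℕ) : ℤ) ≤ ((k * Q : ℕ) : ℤ) := by
    have := Nat.mod_lt (S.sum - i + e) ha
    exact_mod_cast (show (S.sum - i + e) % a ≤ k * Q by omega)
  refine h3.trans ?_
  push_cast
  apply mul_le_mul_of_nonneg_left _ (Int.natCast_nonneg _)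
  have h4 : (0 : ℤ) ≤ ((S.sum - i + e) / a : ℕ) * d := by positivity
  push_cast at h4
  omega

/-- Multisets with two consecutive values. -/
lemma two_type (ha : 0 < a) (hk : 0 < k) (hka : k < a) (hd : 0 < d)
    (hcop : Nat.Coprime a d) {N u e : ℕ} (hN : N + e * d = a * u) {t i y : ℕ} (hyt : y ≤ t)
    (hi : i ≤ k) (hi1 : 0 < y → i + 1 ≤ k) (h1 : Pr a d k u e t (t * i + y))
    (h2 : ¬ Pr a d k u e (t - 1) (t * i + y - i))
    (h3 : 0 < y → ¬ Pr a d k u e (t - 1) (t * i + y - (i + 1))) :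
    ∃ T, Bul (arith a d k) N T ∧ T.card = t := by
  set S := Multiset.replicate (t - y) i + Multiset.replicate y (i + 1) with hS
  have hc : S.card = t := by
    rw [hS, Multiset.card_add, Multiset.card_replicate, Multiset.card_replicate]
    omega
  have hs : S.sum = t * i + y := by
    rw [hS, Multiset.sum_add, Multiset.sum_replicate, Multiset.sum_replicate]
    simp only [smul_eq_mul]
    obtain ⟨c, rfl⟩ := Nat.exists_eq_add_of_le hyt
    rw [Nat.add_sub_cancel_left]
    ring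
  have hmem : ∀ j ∈ S, j = i ∨ (0 < y ∧ j = i + 1) := by
    intro j hj
    rw [hS] at hj
    rcases Multiset.mem_add.1 hj with h | h
    · exact Or.inl (Multiset.eq_of_mem_replicate h)
    · refine Or.inr ⟨?_, Multiset.eq_of_mem_replicate h⟩
      have := (Multiset.mem_replicate.1 h).1
      omega
  refine ⟨S.map (fun i => a + i * d), ?_, by rw [Multiset.card_map, hc]⟩
  rw [bul_arith_iff ha hk hka hd hcop hN S, hc, hs]
  · refine ⟨h1, ?_⟩
    intro j hj
    rcases hmem j hj with rfl | ⟨hy, rfl⟩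
    · exact h2
    · exact h3 hy
  · intro j hj
    rcases hmem j hj with rfl | ⟨hy, rfl⟩
    · exact hi
    · exact hi1 hy

end Pool.Agent.Helper78.Dis
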