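import Pool.Agent.Helper78.Dis.Arith2

/-!
# The dissonance point of numerical monoids generated by arithmetic sequences
-/

set_option autoImplicit false

namespace Pool.Agent.Helper78.Dis

variable {a d k : ℕ}

lemma Pr_gen {u e t σ v m : ℕ} (hv : v < a) (h : σ + e = v + m * a) :
    Pr a d k u e t σ ↔ (v : ℤ) ≤ k * ((t : ℤ) - u + m * d) := by
  unfold Pr
  have h1 : (σ + e) % a = v := by
    rw [h, Nat.add_mul_mod_self_right]
    exact Nat.mod_eq_of_lt hv
  have h2 : (σ + e) / a = m := by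
    rw [h, Nat.add_mul_div_right _ _ (by omega), Nat.div_eq_of_lt hv, Nat.zero_add]
  rw [h1, h2]

lemma uu_pos (ha : 0 < a) (hcop : Nat.Coprime a d) {N : ℕ} (hN : 0 < N) : 0 < uu a d N := by
  have h := uu_spec ha hcop N
  by_contra hcon
  have h0 : uu a d N = 0 := by omega
  rw [h0] at h
  omega

lemma Pr_lt_nat {u e t σ : ℕ} (h : σ + e < a) (hu : u ≤ t) :
    Pr a d k u e t σ ↔ σ + e ≤ k * (t - u) := by
  rw [Pr_lt h]
  have : ((t : ℤ) - u) = ((t - u : ℕ) : ℤ) := by
    push_cast [Nat.cast_sub hu]; ring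
  rw [this]
  exact_mod_cast Iff.rfl

lemma Pr_gen_nat {u e t σ v m : ℕ} (hv : v < a) (h : σ + e = v + m * a) (hu : u ≤ t) :
    Pr a d k u e t σ ↔ v ≤ k * (t - u + m * d) := by
  rw [Pr_gen hv h]
  have : ((t : ℤ) - u + m * d) = ((t - u + m * d : ℕ) : ℤ) := by
    push_cast [Nat.cast_sub hu]; ring
  rw [this]
  exact_mod_cast Iff.rfl

/-- The case in which `k` does not divide `a - 2`. -/
theorem omega_caseA (ha : 2 ≤ a) (hd : 0 < d) (hk : 2 ≤ k) (hka : k < a)
    (hcop : Nat.Coprime a d) (hdiv : ¬ k ∣ a - 2) {N : ℕ} (hN : 0 < N) :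
    omega (arith a d k) N = uu a d N + ((a - 2) / k + 1) := by
  have ha0 : 0 < a := by omega
  have hk0 : 0 < k := by omega
  obtain ⟨P, hP⟩ : ∃ P, (a - 2) / k = P := ⟨_, rfl⟩
  have hdm := Nat.div_add_mod (a - 2) k
  rw [hP] at hdm ⊢
  have hml := Nat.mod_lt (a - 2) hk0
  have hm0 : 0 < (a - 2) % k := by
    rcases Nat.eq_zero_or_pos ((a - 2) % k) with h | h
    · exact absurd (Nat.dvd_of_mod_eq_zero h) hdiv
    · exact h
  have hspec := uu_spec ha0 hcop N
  have hel := ee_lt ha0 hcop N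
  have hu := uu_pos ha0 hcop hN
  obtain ⟨u, hudef⟩ : ∃ u, uu a d N = u := ⟨_, rfl⟩
  obtain ⟨e, hedef⟩ : ∃ e, ee a d N = e := ⟨_, rfl⟩
  rw [hudef] at hspec hu ⊢
  rw [hedef] at hspec hel
  have hQ : a - 1 ≤ k * (P + 1) := by
    rw [Nat.mul_succ]; omega
  have hub := bul_le ha0 hk0 hka hd hcop hspec hQ
  apply le_antisymm (omega_le hub)
  -- the lower bound
  have hr : 0 < u + P := by omega
  have hdm2 := Nat.div_add_mod (a - 1 - e) (u + P)
  have hml2 := Nat.mod_lt (a - 1 - e) hr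
  obtain ⟨r, hrdef⟩ : ∃ r, u + P = r := ⟨_, rfl⟩
  rw [hrdef] at hr hdm2 hml2
  obtain ⟨i, hi⟩ : ∃ i, (a - 1 - e) / r = i := ⟨_, rfl⟩
  obtain ⟨y, hy⟩ : ∃ y, (a - 1 - e) % r = y := ⟨_, rfl⟩
  rw [hi, hy] at hdm2
  rw [hy] at hml2
  have hkr : a - 1 ≤ k * r := hQ.trans (Nat.mul_le_mul_left _ (by omega))
  have hik : i ≤ k := by
    have : r * i ≤ r * k := by rw [Nat.mul_comm r k]; omega
    exact Nat.le_of_mul_le_mul_left this hr
  have hik' : 0 < y → i + 1 ≤ k := by
    intro hy0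
    have : r * i < r * k := by rw [Nat.mul_comm r k]; omega
    exact Nat.lt_of_mul_lt_mul_left this
  have hexp : (r + 1) * i = r * i + i := by ring
  obtain ⟨T, hT, hc⟩ := two_type ha0 hk0 hka hd hcop hspec (t := r + 1) (i := i) (y := y)
    (by omega) hik hik' (by
      rcases Nat.eq_zero_or_pos i with h0 | h0
      · have hs : (r + 1) * i + y + e = a - 1 := by rw [h0] at hdm2 ⊢; omega
        rw [Pr_lt_nat (by omega) (by omega), hs]
        have : r + 1 - u = P + 1 := by omega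
        rw [this]
        exact hQ
      · have hs : (r + 1) * i + y + e = (i - 1) + 1 * a := by rw [hexp]; omega
        rw [Pr_gen_nat (by omega) hs (by omega)]
        have h1 : k * 1 ≤ k * (r + 1 - u + 1 * d) := Nat.mul_le_mul_left _ (by omega)
        omega)
    (by
      have hs : (r + 1) * i + y - i + e = a - 1 := by rw [hexp]; omega
      rw [Nat.add_sub_cancel, Pr_lt_nat (by omega) (by omega), hs]
      have : r - u = P := by omega
      rw [this]
      omega)
    (by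
      intro hy0
      have hs : (r + 1) * i + y - (i + 1) + e = a - 2 := by rw [hexp]; omega
      rw [Nat.add_sub_cancel, Pr_lt_nat (by omega) (by omega), hs]
      have : r - u = P := by omega
      rw [this]
      omega)
  have := le_omega hub hT
  rw [hc] at this
  omega

theorem isDis_caseA (ha : 2 ≤ a) (hd : 0 < d) (hk : 2 ≤ k) (hka : k < a)
    (hcop : Nat.Coprime a d) (hdiv : ¬ k ∣ a - 2) : IsDis (arith a d k) 0 := by
  have ha0 : 0 < a := by omega
  refine ⟨fun N => uu a d N + ((fun _ => (a - 2) / k + 1) (ee a d N)),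
    quasi ha0 hcop (fun _ => (a - 2) / k + 1), ⟨1, ?_⟩, ⟨(arith a d k).zero_mem, ?_⟩, ?_⟩
  · intro N hN
    exact omega_caseA ha hd hk hka hcop hdiv hN
  · rw [omega_zero]
    exact (Nat.succ_pos _).ne
  · rintro N ⟨-, hN⟩
    by_contra hcon
    push Not at hcon
    exact hN (omega_caseA ha hd hk hka hcop hdiv hcon)

end Pool.Agent.Helper78.Dis
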