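import Pool.Agent.Helper78.Dis.Arith3

/-!
# The dissonance point of numerical monoids generated by arithmetic sequences: `k ∣ a - 2`
-/

set_option autoImplicit false

namespace Pool.Agent.Helper78.Dis

variable {a d k : ℕ}

/-- The case `k ∣ a - 2`, top class. -/
lemma omega_caseB_top (ha : 2 ≤ a) (hd : 0 < d) (hk : 2 ≤ k) (hka : k < a)
    (hcop : Nat.Coprime a d) {P : ℕ} (hP : k * P = a - 2) {N : ℕ} (he : ee a d N = a - 1) :
    omega (arith a d k) N = uu a d N + (P + 1) := by
  have ha0 : 0 < a := by omega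
  have hk0 : 0 < k := by omega
  have hspec := uu_spec ha0 hcop N
  obtain ⟨u, hudef⟩ : ∃ u, uu a d N = u := ⟨_, rfl⟩
  rw [hudef] at hspec ⊢
  have hQ : a - 1 ≤ k * (P + 1) := by
    rw [Nat.mul_succ]; omega
  have hub := bul_le ha0 hk0 hka hd hcop hspec hQ
  apply le_antisymm (omega_le hub)
  rw [he] at hspec
  obtain ⟨T, hT, hc⟩ := two_type ha0 hk0 hka hd hcop hspec (t := u + P + 1) (i := 0) (y := 0)
    (by omega) (by omega) (by omega) (by
      rw [Pr_lt_nat (by omega) (by omega)]
      have : u + P + 1 - u = P + 1 := by omega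
      rw [this]
      omega)
    (by
      rw [Nat.add_sub_cancel, Pr_lt_nat (by omega) (by omega)]
      have : u + P - u = P := by omega
      rw [this]
      omega)
    (by omega)
  have := le_omega hub hT
  rw [hc] at this
  omega

/-- The case `k ∣ a - 2`, lower bound in the other classes. -/
lemma omega_caseB_ge (ha : 2 ≤ a) (hd : 0 < d) (hk : 2 ≤ k) (hka : k < a)
    (hcop : Nat.Coprime a d) {P : ℕ} (hP : k * P = a - 2) {N : ℕ} (hN : 0 < N)
    (he : ee a d N < a - 1) : uu a d N + P ≤ omega (arith a d k) N := by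
  have ha0 : 0 < a := by omega
  have hk0 : 0 < k := by omega
  have hP1 : 1 ≤ P := by
    by_contra hc
    have : P = 0 := by omega
    rw [this] at hP
    omega
  have hspec := uu_spec ha0 hcop N
  have hel := ee_lt ha0 hcop N
  have hu := uu_pos ha0 hcop hN
  obtain ⟨u, hudef⟩ : ∃ u, uu a d N = u := ⟨_, rfl⟩
  obtain ⟨e, hedef⟩ : ∃ e, ee a d N = e := ⟨_, rfl⟩
  rw [hudef] at hspec hu ⊢
  rw [hedef] at hspec hel he
  have hQ : a - 1 ≤ k * (P + 1) := by
    rw [Nat.mul_succ]; omega
  have hub := bul_le ha0 hk0 hka hd hcop hspec hQ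
  obtain ⟨P', rfl⟩ : ∃ P', P = P' + 1 := ⟨P - 1, by omega⟩
  have hkP : k * P' + k = a - 2 := by rw [← hP]; ring
  by_cases hNa : u = 1 ∧ e = 0
  · obtain ⟨rfl, rfl⟩ := hNa
    have hexp : (P' + 1 + 1) * k = k * P' + k + k := by ring
    obtain ⟨T, hT, hc⟩ := two_type ha0 hk0 hka hd hcop hspec (t := P' + 1 + 1) (i := k) (y := 0)
      (by omega) (by omega) (by omega) (by
        have hs : (P' + 1 + 1) * k + 0 + 0 = (k - 2) + 1 * a := by rw [hexp]; omega
        rw [Pr_gen_nat (by omega) hs (by omega)]
        have h1 : k * 1 ≤ k * (P' + 1 + 1 - 1 + 1 * d) := Nat.mul_le_mul_left _ (by omega)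
        omega)
      (by
        have hs : (P' + 1 + 1) * k + 0 - k + 0 = a - 2 := by rw [hexp]; omega
        rw [Nat.add_sub_cancel, Pr_lt_nat (by omega) (by omega), hs]
        have : P' + 1 - 1 = P' := by omega
        rw [this]
        omega)
      (by omega)
    have := le_omega hub hT
    rw [hc] at this
    omega
  · -- the main case
    obtain ⟨r, hr⟩ : ∃ r, u + P' = r := ⟨_, rfl⟩
    have hr0 : 0 < r := by omega
    have hkr : a - 1 - e ≤ k * r := by
      rcases Nat.lt_or_ge 1 u with h | h
      · have h1 : k * (P' + 2) ≤ k * r := Nat.mul_le_mul_left _ (by omega)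
        have h2 : k * (P' + 2) = k * P' + k + k := by ring
        omega
      · have h1 : k * (P' + 1) ≤ k * r := Nat.mul_le_mul_left _ (by omega)
        have h2 : k * (P' + 1) = k * P' + k := by ring
        have h3 : e ≠ 0 := fun h0 => hNa ⟨by omega, h0⟩
        omega
    have hdm2 := Nat.div_add_mod (a - 1 - e) r
    have hml2 := Nat.mod_lt (a - 1 - e) hr0
    obtain ⟨i, hi⟩ : ∃ i, (a - 1 - e) / r = i := ⟨_, rfl⟩
    obtain ⟨y, hy⟩ : ∃ y, (a - 1 - e) % r = y := ⟨_, rfl⟩
    rw [hi, hy] at hdm2
    rw [hy] at hml2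
    rcases Nat.eq_zero_or_pos i with hi0 | hi0
    · -- all elements `1` and `0`
      rw [hi0, Nat.mul_zero, Nat.zero_add] at hdm2
      obtain ⟨T, hT, hc⟩ := two_type ha0 hk0 hka hd hcop hspec (t := r + 1) (i := 0) (y := y - 1)
        (by omega) (by omega) (by omega) (by
          have hs : (r + 1) * 0 + (y - 1) + e = a - 2 := by omega
          rw [Pr_lt_nat (by omega) (by omega), hs]
          have : r + 1 - u = P' + 1 := by omega
          rw [this, Nat.mul_succ]
          omega)
        (by
          have hs : (r + 1) * 0 + (y - 1) - 0 + e = a - 2 := by omega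
          rw [Nat.add_sub_cancel, Pr_lt_nat (by omega) (by omega), hs]
          have : r - u = P' := by omega
          rw [this]
          omega)
        (by
          intro hy0
          have hs : (r + 1) * 0 + (y - 1) - (0 + 1) + e = a - 3 := by omega
          rw [Nat.add_sub_cancel, Pr_lt_nat (by omega) (by omega), hs]
          have : r - u = P' := by omega
          rw [this]
          omega)
      have := le_omega hub hT
      rw [hc] at this
      omega
    · have hik : i ≤ k := by
        have : r * i ≤ r * k := by rw [Nat.mul_comm r k]; omega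
        exact Nat.le_of_mul_le_mul_left this hr0
      have hik' : 0 < y → i + 1 ≤ k := by
        intro hy0
        have : r * i < r * k := by rw [Nat.mul_comm r k]; omega
        exact Nat.lt_of_mul_lt_mul_left this
      have hexp : (r + 1) * i = r * i + i := by ring
      obtain ⟨T, hT, hc⟩ := two_type ha0 hk0 hka hd hcop hspec (t := r + 1) (i := i) (y := y)
        (by omega) hik hik' (by
          have hs : (r + 1) * i + y + e = (i - 1) + 1 * a := by rw [hexp]; omega
          rw [Pr_gen_nat (by omega) hs (by omega)]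
          have h1 : k * 1 ≤ k * (r + 1 - u + 1 * d) := Nat.mul_le_mul_left _ (by omega)
          omega)
        (by
          have hs : (r + 1) * i + y - i + e = a - 1 := by rw [hexp]; omega
          rw [Nat.add_sub_cancel, Pr_lt_nat (by omega) (by omega), hs]
          have : r - u = P' := by omega
          rw [this]
          omega)
        (by
          intro hy0
          have hs : (r + 1) * i + y - (i + 1) + e = a - 2 := by rw [hexp]; omega
          rw [Nat.add_sub_cancel, Pr_lt_nat (by omega) (by omega), hs]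
          have : r - u = P' := by omega
          rw [this]
          omega)
      have := le_omega hub hT
      rw [hc] at this
      omega

/-- The case `k ∣ a - 2`, upper bound in the other classes, beyond the dissonance point. -/
lemma omega_caseB_le (ha : 2 ≤ a) (hd : 0 < d) (hk : 2 ≤ k) (hka : k < a)
    (hcop : Nat.Coprime a d) {P : ℕ} (hP : k * P = a - 2) {N : ℕ}
    (hN : a * (a - 1 - P) < N)
    (he : ee a d N < a - 1) : omega (arith a d k) N ≤ uu a d N + P := by
  have ha0 : 0 < a := by omega
  have hk0 : 0 < k := by omega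
  have hspec := uu_spec ha0 hcop N
  have hel := ee_lt ha0 hcop N
  obtain ⟨u, hudef⟩ : ∃ u, uu a d N = u := ⟨_, rfl⟩
  obtain ⟨e, hedef⟩ : ∃ e, ee a d N = e := ⟨_, rfl⟩
  rw [hudef] at hspec ⊢
  rw [hedef] at hspec hel he
  have hQ : a - 1 ≤ k * (P + 1) := by
    rw [Nat.mul_succ]; omega
  have hub := bul_le ha0 hk0 hka hd hcop hspec hQ
  apply omega_le
  intro T hT
  by_contra hcon
  push Not at hcon
  have hTc := hub T hT
  obtain ⟨S, hS, rfl⟩ := exists_gen ha0 hka hd hcop T hT.1
  obtain ⟨-, h2⟩ := (bul_arith_iff ha0 hk0 hka hd hcop hspec S hS).1 hT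
  rw [Multiset.card_map] at hcon hTc
  have hcard : S.card = u + P + 1 := by omega
  have hall : ∀ i ∈ S, S.sum - i + e = a - 1 := by
    intro i hi
    have h3 := h2 i hi
    have hdm := Nat.mod_add_div (S.sum - i + e) a
    have hml := Nat.mod_lt (S.sum - i + e) ha0
    obtain ⟨v, hv⟩ : ∃ v, (S.sum - i + e) % a = v := ⟨_, rfl⟩
    obtain ⟨m, hm⟩ : ∃ m, (S.sum - i + e) / a = m := ⟨_, rfl⟩
    rw [hv, hm] at hdm
    rw [hv] at hml
    have hs : S.sum - i + e = v + m * a := by rw [← hdm]; ring
    rw [Pr_gen_nat hml hs (by omega), hcard] at h3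
    have e1 : u + P + 1 - 1 - u + m * d = P + m * d := by omega
    rw [e1, Nat.mul_add, hP] at h3
    rcases Nat.eq_zero_or_pos m with h0 | h0
    · rw [h0] at h3 hs
      omega
    · exfalso
      have h4 : 1 * (1 * 1) ≤ k * (m * d) := Nat.mul_le_mul hk0 (Nat.mul_le_mul h0 hd)
      omega
  have hle : ∀ i ∈ S, i ≤ S.sum := fun i hi =>
    Multiset.single_le_sum (fun _ _ => Nat.zero_le _) i hi
  have hrep : S = Multiset.replicate S.card (S.sum + e - (a - 1)) := by
    rw [Multiset.eq_replicate]
    refine ⟨rfl, ?_⟩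
    intro i hi
    have h3 := hall i hi
    have h4 := hle i hi
    omega
  obtain ⟨j, hj⟩ : ∃ j, S.sum + e - (a - 1) = j := ⟨_, rfl⟩
  rw [hj, hcard] at hrep
  have hjS : j ∈ S := by
    rw [hrep]
    exact Multiset.mem_replicate.2 ⟨by omega, rfl⟩
  have hsum : S.sum = (u + P + 1) * j := by
    rw [hrep, Multiset.sum_replicate, smul_eq_mul]
  have h3 := hall j hjS
  rw [hsum] at h3
  have h4 : (u + P + 1) * j = (u + P) * j + j := by ring
  rw [h4, Nat.add_sub_cancel] at h3
  have hj1 : 1 ≤ j := by
    by_contra hc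
    have : j = 0 := by omega
    rw [this] at h3
    omega
  have h5 : (u + P) * 1 ≤ (u + P) * j := Nat.mul_le_mul_left _ hj1
  have h6 : u ≤ a - 1 - P := by omega
  have h7 : a * u ≤ a * (a - 1 - P) := Nat.mul_le_mul_left _ h6
  omega

theorem isDis_caseB (ha : 2 ≤ a) (hd : 0 < d) (hk : 2 ≤ k) (hka : k < a)
    (hcop : Nat.Coprime a d) (hdiv : k ∣ a - 2) :
    IsDis (arith a d k) (a * (a - 1 - (a - 2) / k)) := by
  have ha0 : 0 < a := by omega
  have hk0 : 0 < k := by omega
  obtain ⟨P, hP'⟩ : ∃ P, (a - 2) / k = P := ⟨_, rfl⟩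
  have hP : k * P = a - 2 := by rw [← hP']; exact Nat.mul_div_cancel' hdiv
  rw [hP']
  have hPle : P ≤ a - 2 := by
    rw [← hP]
    exact Nat.le_mul_of_pos_left _ hk0
  have hagree : ∀ N, a * (a - 1 - P) < N → omega (arith a d k) N =
      uu a d N + ((fun e => if e = a - 1 then P + 1 else P) (ee a d N)) := by
    intro N hN
    have hel := ee_lt ha0 hcop N
    by_cases he : ee a d N = a - 1
    · rw [omega_caseB_top ha hd hk hka hcop hP he]
      simp [he]
    · have h1 := omega_caseB_ge ha hd hk hka hcop hP (N := N) (by omega) (by omega)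
      have h2 := omega_caseB_le ha hd hk hka hcop hP hN (by omega)
      simp only [he, if_false]
      omega
  refine ⟨fun N => uu a d N + ((fun e => if e = a - 1 then P + 1 else P) (ee a d N)),
    quasi ha0 hcop (fun e => if e = a - 1 then P + 1 else P), ⟨a * (a - 1 - P) + 1, ?_⟩, ⟨?_, ?_⟩⟩
  · intro N hN
    exact hagree N (by omega)
  · -- the dissonance point itself
    refine ⟨?_, ?_⟩
    · rw [mem_arith]
      exact ⟨a - 1 - P, 0, by omega, by ring⟩
    · have hN0 : a * (a - 1 - P) + 0 * d = a * (a - 1 - P) := by ring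
      obtain ⟨he, hu⟩ := ee_eq ha0 hcop ha0 hN0
      have h0 : (0 : ℕ) ≠ a - 1 := by omega
      simp only [he, hu, h0, if_false]
      have hQ : a - 1 ≤ k * (P + 1) := by
        rw [Nat.mul_succ]; omega
      have hub := bul_le ha0 hk0 hka hd hcop hN0 hQ
      obtain ⟨T, hT, hc⟩ := two_type ha0 hk0 hka hd hcop hN0 (t := a) (i := 1) (y := 0)
        (by omega) (by omega) (by omega) (by
          have hs : a * 1 + 0 + 0 = 0 + 1 * a := by ring
          rw [Pr_gen_nat ha0 hs (by omega)]
          omega)
        (by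
          have hs : a * 1 + 0 - 1 + 0 = a - 1 := by omega
          rw [Pr_lt_nat (by omega) (by omega), hs]
          have : a - 1 - (a - 1 - P) = P := by omega
          rw [this]
          omega)
        (by omega)
      have h1 := le_omega hub hT
      rw [hc] at h1
      omega
  · rintro N ⟨-, hN⟩
    by_contra hcon
    push Not at hcon
    exact hN (hagree N hcon)

end Pool.Agent.Helper78.Dis
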