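import Pool.Agent.Helper78.Dis.Arith3

/-!
# The dissonance point of numerical monoids with two generators
-/

set_option autoImplicit false

namespace Pool.Agent.Helper78.Dis

variable {a d : ℕ}

lemma omega_caseC_ge (ha : 2 ≤ a) (hd : 0 < d) (hcop : Nat.Coprime a d) (N : ℕ) :
    uu a d N + ee a d N ≤ omega (arith a d 1) N := by
  have ha0 : 0 < a := by omega
  have hspec := uu_spec ha0 hcop N
  have hel := ee_lt ha0 hcop N
  obtain ⟨u, hudef⟩ : ∃ u, uu a d N = u := ⟨_, rfl⟩
  obtain ⟨e, hedef⟩ : ∃ e, ee a d N = e := ⟨_, rfl⟩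
  rw [hudef] at hspec ⊢
  rw [hedef] at hspec hel ⊢
  have hub := bul_le ha0 (by omega : 0 < 1) (by omega : 1 < a) hd hcop hspec (Q := a) (by omega)
  rcases Nat.eq_zero_or_pos (u + e) with h0 | h0
  · omega
  · obtain ⟨T, hT, hc⟩ := two_type ha0 (by omega : 0 < 1) (by omega : 1 < a) hd hcop hspec
      (t := u + e) (i := 0) (y := 0) (by omega) (by omega) (by omega) (by
        rw [Pr_lt_nat (by omega) (by omega)]
        omega)
      (by
        rw [Pr_lt (by omega)]
        push_cast
        omega)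
      (by omega)
    have := le_omega hub hT
    rw [hc] at this
    omega

lemma omega_caseC_le (ha : 2 ≤ a) (hd : 0 < d) (hcop : Nat.Coprime a d) {N : ℕ}
    (hN : a * (a * ((a - 2) / d + 1) - 1) < N) :
    omega (arith a d 1) N ≤ uu a d N + ee a d N := by
  have ha0 : 0 < a := by omega
  have hspec := uu_spec ha0 hcop N
  have hel := ee_lt ha0 hcop N
  obtain ⟨u, hudef⟩ : ∃ u, uu a d N = u := ⟨_, rfl⟩
  obtain ⟨e, hedef⟩ : ∃ e, ee a d N = e := ⟨_, rfl⟩
  rw [hudef] at hspec ⊢
  rw [hedef] at hspec hel ⊢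
  apply omega_le
  intro T hT
  by_contra hcon
  push Not at hcon
  obtain ⟨S, hS, rfl⟩ := exists_gen ha0 (by omega : 1 < a) hd hcop T hT.1
  obtain ⟨h1, h2⟩ := (bul_arith_iff ha0 (by omega : 0 < 1) (by omega : 1 < a) hd hcop hspec S
    hS).1 hT
  rw [Multiset.card_map] at hcon
  obtain ⟨t, ht⟩ : ∃ t, S.card = t := ⟨_, rfl⟩
  rw [ht] at hcon h1 h2
  by_cases h1S : 1 ∈ S
  · have hsum1 : 1 ≤ S.sum := Multiset.single_le_sum (fun _ _ => Nat.zero_le _) 1 h1S
    have hdm := Nat.mod_add_div (S.sum + e) a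
    have hml := Nat.mod_lt (S.sum + e) ha0
    obtain ⟨v, hv⟩ : ∃ v, (S.sum + e) % a = v := ⟨_, rfl⟩
    obtain ⟨m, hm⟩ : ∃ m, (S.sum + e) / a = m := ⟨_, rfl⟩
    rw [hv, hm] at hdm
    rw [hv] at hml
    have hs : S.sum + e = v + m * a := by rw [← hdm]; ring
    rw [Pr_gen_nat hml hs (by omega)] at h1
    have h3 := h2 1 h1S
    rcases Nat.eq_zero_or_pos v with hv0 | hv0
    · rw [hv0] at hs h1
      rw [Nat.zero_add] at hs
      obtain ⟨m', rfl⟩ : ∃ m', m = m' + 1 := by
        rcases Nat.eq_zero_or_pos m with hm0 | hm0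
        · rw [hm0] at hs
          omega
        · exact ⟨m - 1, by omega⟩
      have hs2 : S.sum - 1 + e = (a - 1) + m' * a := by
        rw [Nat.succ_mul] at hs
        omega
      rw [Pr_gen_nat (by omega) hs2 (by omega)] at h3
      -- no zeros
      have h0S : 0 ∉ S := by
        intro h0
        apply h2 0 h0
        have hs3 : S.sum - 0 + e = 0 + (m' + 1) * a := by omega
        rw [Pr_gen_nat ha0 hs3 (by omega)]
        omega
      have hrep : S = Multiset.replicate S.card 1 := by
        rw [Multiset.eq_replicate]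
        refine ⟨rfl, ?_⟩
        intro i hi
        have h4 := hS i hi
        rcases Nat.eq_zero_or_pos i with h5 | h5
        · rw [h5] at hi
          exact absurd hi h0S
        · omega
      have hsum : S.sum = t := by
        rw [hrep, Multiset.sum_replicate, smul_eq_mul, Nat.mul_one, ht]
      rw [hsum] at hs
      have h5 : m' * d ≤ a - 2 := by
        rw [Nat.one_mul] at h3
        omega
      have h6 : m' ≤ (a - 2) / d := by
        rw [Nat.le_div_iff_mul_le hd]
        exact h5
      have h7 : (m' + 1) * a ≤ a * ((a - 2) / d + 1) := by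
        rw [Nat.mul_comm]
        exact Nat.mul_le_mul_left _ (by omega)
      have h8 : u ≤ a * ((a - 2) / d + 1) - 1 := by omega
      have h9 : a * u ≤ a * (a * ((a - 2) / d + 1) - 1) := Nat.mul_le_mul_left _ h8
      omega
    · apply h3
      have hs2 : S.sum - 1 + e = (v - 1) + m * a := by omega
      rw [Pr_gen_nat (by omega) hs2 (by omega)]
      omega
  · have h0 : ∀ i ∈ S, i = 0 := by
      intro i hi
      have h4 := hS i hi
      rcases Nat.eq_zero_or_pos i with h5 | h5
      · exact h5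
      · have : i = 1 := by omega
        rw [this] at hi
        exact absurd hi h1S
    have hsum : S.sum = 0 := Multiset.sum_eq_zero h0
    obtain ⟨i, hi⟩ := Multiset.card_pos_iff_exists_mem.1 (by omega : 0 < S.card)
    apply h2 i hi
    rw [h0 i hi, hsum, Pr_lt_nat (by omega) (by omega)]
    omega

theorem isDis_caseC (ha : 2 ≤ a) (hd : 0 < d) (hcop : Nat.Coprime a d) :
    IsDis (arith a d 1) (a * (a * ((a - 2) / d + 1) - 1)) := by
  have ha0 : 0 < a := by omega
  have hagree : ∀ N, a * (a * ((a - 2) / d + 1) - 1) < N → omega (arith a d 1) N =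
      uu a d N + (id (ee a d N)) := by
    intro N hN
    exact le_antisymm (omega_caseC_le ha hd hcop hN) (omega_caseC_ge ha hd hcop N)
  refine ⟨fun N => uu a d N + (id (ee a d N)),
    quasi ha0 hcop id, ⟨a * (a * ((a - 2) / d + 1) - 1) + 1, fun N hN => hagree N (by omega)⟩,
    ⟨⟨?_, ?_⟩, ?_⟩⟩
  · rw [mem_arith]
    exact ⟨a * ((a - 2) / d + 1) - 1, 0, by omega, by ring⟩
  · obtain ⟨q, hq⟩ : ∃ q, (a - 2) / d = q := ⟨_, rfl⟩
    have hqd : q * d ≤ a - 2 := by
      rw [← hq]
      exact Nat.div_mul_le_self _ _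
    rw [hq]
    have hM : 1 ≤ a * (q + 1) := Nat.mul_pos ha0 (by omega)
    have hN0 : a * (a * (q + 1) - 1) + 0 * d = a * (a * (q + 1) - 1) := by ring
    obtain ⟨he, hu⟩ := ee_eq ha0 hcop ha0 hN0
    simp only [he, hu, id_eq]
    have hub := bul_le ha0 (by omega : 0 < 1) (by omega : 1 < a) hd hcop hN0 (Q := a) (by omega)
    obtain ⟨T, hT, hc⟩ := two_type ha0 (by omega : 0 < 1) (by omega : 1 < a) hd hcop hN0
      (t := a * (q + 1)) (i := 1) (y := 0)
      (by omega) (by omega) (by omega) (by
        have hs : a * (q + 1) * 1 + 0 + 0 = 0 + (q + 1) * a := by ring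
        rw [Pr_gen_nat ha0 hs (by omega)]
        omega)
      (by
        have hs : a * (q + 1) * 1 + 0 - 1 + 0 = (a - 1) + q * a := by
          have : a * (q + 1) = q * a + a := by ring
          omega
        rw [Pr_gen_nat (by omega) hs (by omega)]
        have : a * (q + 1) - 1 - (a * (q + 1) - 1) = 0 := by omega
        rw [this, Nat.zero_add]
        omega)
      (by omega)
    have h1 := le_omega hub hT
    rw [hc] at h1
    omega
  · rintro N ⟨-, hN⟩
    by_contra hcon
    push Not at hcon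
    exact hN (hagree N hcon)

end Pool.Agent.Helper78.Dis
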