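import Pool.Agent.Helper78.Dis.Defs

/-!
# Bullets and the uniqueness of the quasilinear form
-/

set_option autoImplicit false

namespace Pool.Agent.Helper78.Dis

/-- Bullets: minimal multisets of atoms with sum `≽ N`. -/
def Bul (Γ : AddSubmonoid ℕ) (N : ℕ) (T : Multiset ℕ) : Prop :=
  (∀ x ∈ T, IsAt Γ x) ∧ Dv Γ N T.sum ∧ ∀ x ∈ T, ¬ Dv Γ N (T.erase x).sum

lemma exists_bul {Γ : AddSubmonoid ℕ} {N : ℕ} : ∀ (c : ℕ) (u : Multiset ℕ), u.card = c →
    (∀ x ∈ u, IsAt Γ x) → Dv Γ N u.sum → ∃ T ≤ u, Bul Γ N T := by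
  intro c
  induction c with
  | zero =>
    intro u hc hu hd
    refine ⟨u, le_refl _, hu, hd, ?_⟩
    rw [Multiset.card_eq_zero] at hc
    subst hc
    intro x hx
    exact absurd hx (Multiset.notMem_zero x)
  | succ c ih =>
    intro u hc hu hd
    by_cases hb : ∀ x ∈ u, ¬ Dv Γ N (u.erase x).sum
    · exact ⟨u, le_refl _, hu, hd, hb⟩
    · push Not at hb
      obtain ⟨x, hx, hdx⟩ := hb
      obtain ⟨T, hT, hbT⟩ := ih (u.erase x) (by rw [Multiset.card_erase_of_mem hx, hc]; rfl)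
        (fun y hy => hu y (Multiset.mem_of_mem_erase hy)) hdx
      exact ⟨T, hT.trans (Multiset.erase_le x u), hbT⟩

lemma sum_mem_of_atoms {Γ : AddSubmonoid ℕ} {T : Multiset ℕ} (h : ∀ x ∈ T, IsAt Γ x) :
    T.sum ∈ Γ := by
  apply AddSubmonoid.multiset_sum_mem
  intro x hx
  exact (h x hx).1

lemma Bul.eq_of_le {Γ : AddSubmonoid ℕ} {N : ℕ} {T T' : Multiset ℕ} (h : Bul Γ N T)
    (hle : T' ≤ T) (hd : Dv Γ N T'.sum) : T' = T := by
  by_contra hne
  obtain ⟨x, hx⟩ := Multiset.lt_iff_cons_le.1 (lt_of_le_of_ne hle hne)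
  have hxT : x ∈ T := Multiset.mem_of_le hx (Multiset.mem_cons_self x T')
  have hle2 : T' ≤ T.erase x := by
    have := Multiset.erase_le_erase x hx
    rwa [Multiset.erase_cons_head] at this
  apply h.2.2 x hxT
  obtain ⟨z, hz, hz2⟩ := hd
  obtain ⟨R, hR⟩ := Multiset.le_iff_exists_add.1 hle2
  have hRm : R.sum ∈ Γ := by
    apply sum_mem_of_atoms
    intro y hy
    apply h.1 y
    apply Multiset.mem_of_mem_erase (a := y) (b := x)
    rw [hR]
    exact Multiset.mem_add.2 (Or.inr hy)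
  refine ⟨z + R.sum, Γ.add_mem hz hRm, ?_⟩
  rw [hR, Multiset.sum_add]
  omega

lemma omega_le {Γ : AddSubmonoid ℕ} {N m : ℕ} (h : ∀ T, Bul Γ N T → T.card ≤ m) :
    omega Γ N ≤ m := by
  apply Nat.sInf_le
  intro u hu hd
  obtain ⟨T, hT, hb⟩ := exists_bul _ u rfl hu hd
  exact ⟨T, hT, h T hb, hb.2.1⟩

lemma le_omega {Γ : AddSubmonoid ℕ} {N m : ℕ} (h : ∀ T, Bul Γ N T → T.card ≤ m)
    {T : Multiset ℕ} (hT : Bul Γ N T) : T.card ≤ omega Γ N := by
  have hne : {m : ℕ | ∀ u : Multiset ℕ, (∀ x ∈ u, IsAt Γ x) → Dv Γ N u.sum →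
    ∃ T ≤ u, T.card ≤ m ∧ Dv Γ N T.sum}.Nonempty := by
    refine ⟨m, ?_⟩
    intro u hu hd
    obtain ⟨T, hT, hb⟩ := exists_bul _ u rfl hu hd
    exact ⟨T, hT, h T hb, hb.2.1⟩
  obtain ⟨T', h1, h2, h3⟩ := Nat.sInf_mem hne T hT.1 hT.2.1
  rw [hT.eq_of_le h1 h3] at h2
  exact h2

lemma omega_zero (Γ : AddSubmonoid ℕ) : omega Γ 0 = 0 := by
  apply Nat.le_zero.1
  apply omega_le
  intro T hT
  rw [Nat.le_zero, Multiset.card_eq_zero]
  by_contra hne
  obtain ⟨x, hx⟩ := Multiset.exists_mem_of_ne_zero hne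
  apply hT.2.2 x hx
  refine ⟨(T.erase x).sum, ?_, by omega⟩
  apply sum_mem_of_atoms
  intro y hy
  exact hT.1 y (Multiset.mem_of_mem_erase hy)

lemma periodic_mul {α : Type} {g : ℕ → α} {p : ℕ} (h : ∀ n, g (n + p) = g n) (n m : ℕ) :
    g (n + p * m) = g n := by
  induction m with
  | zero => simp
  | succ m ih => rw [Nat.mul_succ, ← Nat.add_assoc, h, ih]

lemma IsQuasilinear.unique {f g : ℕ → ℕ} (hf : IsQuasilinear f) (hg : IsQuasilinear g)
    {n₀ : ℕ} (h : ∀ n, n₀ ≤ n → f n = g n) : f = g := by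
  obtain ⟨a₁, a₀, p, hp, h1, h0, -, hf⟩ := hf
  obtain ⟨b₁, b₀, q, hq, k1, k0, -, hg⟩ := hg
  funext n
  have key : ∀ m, n₀ ≤ m → a₁ n * (n + p * q * m) + a₀ n = b₁ n * (n + p * q * m) + b₀ n := by
    intro m hm
    have hle : n₀ ≤ n + p * (q * m) := by
      have : m ≤ p * (q * m) := by
        calc m = 1 * (1 * m) := by ring
          _ ≤ p * (q * m) := Nat.mul_le_mul hp (Nat.mul_le_mul hq le_rfl)
      omega
    have e := h _ hle
    have e1 := hf (n + p * (q * m))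
    have e2 := hg (n + p * (q * m))
    rw [periodic_mul h1, periodic_mul h0] at e1
    have e3 : n + p * (q * m) = n + q * (p * m) := by ring
    rw [e3, periodic_mul k1, periodic_mul k0, ← e3] at e2
    rw [e] at e1
    rw [e1] at e2
    push_cast at e2
    linear_combination e2
  have e1 := key n₀ le_rfl
  have e2 := key (n₀ + 1) (by omega)
  have hpq : (p : ℚ) * q ≠ 0 := by positivity
  have e3 : (a₁ n - b₁ n) * ((p : ℚ) * q) = 0 := by
    push_cast at e2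
    linear_combination e2 - e1
  have e4 : a₁ n = b₁ n := by
    rcases mul_eq_zero.1 e3 with h | h
    · linarith
    · exact absurd h hpq
  have e5 : a₀ n = b₀ n := by
    rw [e4] at e1
    linarith
  have e6 : (f n : ℚ) = g n := by rw [hf, hg, e4, e5]
  exact_mod_cast e6

end Pool.Agent.Helper78.Dis
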