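import Pool.Agent.Helper78.Dis.Height

/-!
# The omega function through heights
-/

set_option autoImplicit false

namespace Pool.Agent.Helper78.Dis

/-- Further standing assumptions: `b` is the second atom. -/
structure Hyp2 (Γ : AddSubmonoid ℕ) (a b F : ℕ) : Prop extends Hyp Γ a F where
  haA : IsAt Γ a
  hbA : IsAt Γ b
  hab : a < b
  hbmin : ∀ x, IsAt Γ x → x ≠ a → b ≤ x

variable {Γ : AddSubmonoid ℕ} {a b F : ℕ}

lemma ht_le (hH : Hyp2 Γ a b F) (N : ℕ) (B : Multiset ℕ) (hB : ∀ x ∈ B, IsAt Γ x ∧ x ≠ a) :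
    ht Γ a N B ≤ F + a - ((b : ℤ) - a) * B.card := by
  have h1 : (w Γ a ((B.sum : ℤ) - N) : ℤ) ≤ F + a := by
    exact_mod_cast w_bound hH.toHyp _
  have h2 : B.card * b ≤ B.sum := by
    have := Multiset.card_nsmul_le_sum (s := B) (a := b)
      (fun x hx => hH.hbmin x (hB x hx).1 (hB x hx).2)
    simpa using this
  have h3 : (B.card : ℤ) * b ≤ B.sum := by exact_mod_cast h2
  unfold ht
  linarith

lemma ht_le' (hH : Hyp2 Γ a b F) (N : ℕ) (B : Multiset ℕ) (hB : ∀ x ∈ B, IsAt Γ x ∧ x ≠ a) :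
    ht Γ a N B ≤ F + a := by
  have h1 := ht_le hH N B hB
  have h2 : (0 : ℤ) ≤ ((b : ℤ) - a) * B.card := by
    apply mul_nonneg _ (Int.natCast_nonneg _)
    have := hH.hab
    omega
  linarith

lemma others_erase {B : Multiset ℕ} (hB : ∀ x ∈ B, IsAt Γ x ∧ x ≠ a) (y : ℕ) :
    ∀ x ∈ B.erase y, IsAt Γ x ∧ x ≠ a := fun x hx => hB x (Multiset.mem_of_mem_erase hx)

lemma descent_nil (N : ℕ) : Descent Γ a N 0 :=
  ⟨fun x hx => absurd hx (Multiset.notMem_zero x), fun x hx => absurd hx (Multiset.notMem_zero x)⟩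

lemma top_bdd (hH : Hyp2 Γ a b F) (N : ℕ) :
    BddAbove {v : ℤ | ∃ B, Descent Γ a N B ∧ ht Γ a N B = v} := by
  refine ⟨F + a, ?_⟩
  rintro v ⟨B, hB, rfl⟩
  exact ht_le' hH N B hB.1

lemma top_mem (hH : Hyp2 Γ a b F) (N : ℕ) : ∃ B, Descent Γ a N B ∧ ht Γ a N B = top Γ a N := by
  have hne : {v : ℤ | ∃ B, Descent Γ a N B ∧ ht Γ a N B = v}.Nonempty :=
    ⟨_, 0, descent_nil N, rfl⟩
  exact Int.csSup_mem hne (top_bdd hH N)

lemma le_top (hH : Hyp2 Γ a b F) {N : ℕ} {B : Multiset ℕ} (hB : Descent Γ a N B) :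
    ht Γ a N B ≤ top Γ a N :=
  le_csSup (top_bdd hH N) ⟨B, hB, rfl⟩

lemma top_nonneg (hH : Hyp2 Γ a b F) (N : ℕ) : 0 ≤ top Γ a N :=
  (ht_nil_nonneg N).trans (le_top hH (descent_nil N))

lemma dvd_top (hH : Hyp2 Γ a b F) (N : ℕ) : (a : ℤ) ∣ top Γ a N + N := by
  obtain ⟨B, -, hB⟩ := top_mem hH N
  rw [← hB]
  exact dvd_ht hH.toHyp N B

lemma dvd_V_top (hH : Hyp2 Γ a b F) (N : ℕ) (t : ℤ) :
    (a : ℤ) ∣ (a * t - N) - top Γ a N := by
  obtain ⟨B, -, hB⟩ := top_mem hH N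
  rw [← hB]
  exact dvd_V_ht hH.toHyp N t B

lemma apos (hH : Hyp2 Γ a b F) : (0 : ℤ) < a := by exact_mod_cast hH.ha0

/-- Every bullet splits as copies of `a` and other atoms. -/
lemma split_a (T : Multiset ℕ) (hT : ∀ x ∈ T, IsAt Γ x) :
    ∃ b₀ B, T = Multiset.replicate b₀ a + B ∧ ∀ x ∈ B, IsAt Γ x ∧ x ≠ a := by
  refine ⟨T.count a, T.filter (fun x => x ≠ a), ?_, ?_⟩
  · have h1 := Multiset.filter_add_not (fun x => x = a) T
    have h2 : T.filter (fun x => x = a) = Multiset.replicate (T.count a) a :=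
      Multiset.filter_eq' T a
    rw [h2] at h1
    exact h1.symm
  · intro x hx
    rw [Multiset.mem_filter] at hx
    exact ⟨hT x hx.1, hx.2⟩

/-- Bullets give admissible descents. -/
lemma adm_of_bul (hH : Hyp2 Γ a b F) {N : ℕ} {T : Multiset ℕ} (hT : Bul Γ N T) :
    ∃ B, Adm Γ a N B ∧ (T.card = B.card ∨ (a : ℤ) * T.card = N + ht Γ a N B) := by
  obtain ⟨b₀, B, rfl, hB⟩ := split_a (a := a) T hT.1
  obtain ⟨h1, h2, h3⟩ := (bul_iff hH.toHyp hH.haA N b₀ B hB).1 hT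
  refine ⟨B, ⟨⟨hB, ?_⟩, ?_⟩, ?_⟩
  · intro x hx
    exact h1.trans (h3 x hx)
  · intro x hx
    refine le_trans ?_ (h3 x hx)
    have : (0 : ℤ) ≤ a * b₀ := by positivity
    linarith
  · rcases Nat.eq_zero_or_pos b₀ with h | h
    · left
      subst h
      simp
    · right
      have h4 := h2 h
      rw [Multiset.card_add, Multiset.card_replicate]
      push_cast
      linarith

/-- Admissible descents give bullets. -/
lemma bul_of_adm (hH : Hyp2 Γ a b F) {N : ℕ} {B : Multiset ℕ} (hB : Adm Γ a N B) :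
    ∃ T, Bul Γ N T ∧ B.card ≤ T.card ∧ N + ht Γ a N B ≤ (a : ℤ) * T.card := by
  obtain ⟨⟨hB1, hB2⟩, hB3⟩ := hB
  have ha := apos hH
  rcases le_or_gt (ht Γ a N B) ((a : ℤ) * B.card - N) with h | h
  · refine ⟨B, ?_, le_rfl, by linarith⟩
    have := (bul_iff hH.toHyp hH.haA N 0 B hB1).2 ⟨by simpa using h, by simp, by simpa using hB3⟩
    simpa using this
  · obtain ⟨m, hm⟩ := dvd_ht hH.toHyp N B
    have h1 : (a : ℤ) * B.card < a * m := by linarith
    have h2 : (B.card : ℤ) < m := lt_of_mul_lt_mul_left h1 ha.le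
    obtain ⟨b₀, hb⟩ : ∃ b₀ : ℕ, m = b₀ + B.card := ⟨(m - B.card).toNat, by omega⟩
    have hb0 : 0 < b₀ := by omega
    rw [hb] at hm
    have e : (a : ℤ) * (b₀ + B.card) - N = ht Γ a N B := by linarith
    refine ⟨Multiset.replicate b₀ a + B, ?_, ?_, ?_⟩
    · rw [bul_iff hH.toHyp hH.haA N b₀ B hB1, e]
      exact ⟨le_rfl, fun _ => le_rfl, hB2⟩
    · rw [Multiset.card_add]
      omega
    · rw [Multiset.card_add, Multiset.card_replicate]
      push_cast
      linarith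

lemma adm_card_le (hH : Hyp2 Γ a b F) {N : ℕ} {B : Multiset ℕ} (hB : Adm Γ a N B) :
    (a : ℤ) * B.card ≤ N + F + a := by
  rcases Multiset.empty_or_exists_mem B with h | ⟨x, hx⟩
  · rw [h]
    simp only [Multiset.card_zero, Nat.cast_zero, mul_zero]
    positivity
  · have h1 := hB.2 x hx
    have h2 := ht_le' hH N (B.erase x) (others_erase hB.1.1 x)
    linarith

lemma bul_bound (hH : Hyp2 Γ a b F) {N : ℕ} (T : Multiset ℕ) (hT : Bul Γ N T) :
    T.card ≤ N + F + a := by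
  obtain ⟨B, hB, h⟩ := adm_of_bul hH hT
  have h3 : (a : ℤ) * T.card ≤ N + F + a := by
    rcases h with h | h
    · rw [h]
      exact adm_card_le hH hB
    · rw [h]
      have := ht_le' hH N B hB.1.1
      linarith
  have h4 : a * T.card ≤ N + F + a := by exact_mod_cast h3
  exact (Nat.le_mul_of_pos_left _ hH.ha0).trans h4

lemma le_omega_of_adm (hH : Hyp2 Γ a b F) {N : ℕ} {B : Multiset ℕ} (hB : Adm Γ a N B) :
    B.card ≤ omega Γ N ∧ N + ht Γ a N B ≤ (a : ℤ) * omega Γ N := by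
  obtain ⟨T, hT, h1, h2⟩ := bul_of_adm hH hB
  have h3 := le_omega (bul_bound hH) hT
  refine ⟨h1.trans h3, h2.trans ?_⟩
  have : (T.card : ℤ) ≤ omega Γ N := by exact_mod_cast h3
  exact mul_le_mul_of_nonneg_left this (apos hH).le

lemma exists_bul_card (hH : Hyp2 Γ a b F) (N : ℕ) : ∃ T, Bul Γ N T ∧ T.card = omega Γ N := by
  by_contra hcon
  push Not at hcon
  have h1 : ∀ T, Bul Γ N T → T.card ≤ omega Γ N - 1 := by
    intro T hT
    have h2 := hcon T hT
    have h3 := le_omega (bul_bound hH) hT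
    omega
  have h2 := omega_le h1
  have h3 : omega Γ N = 0 := by omega
  obtain ⟨T, -, hT⟩ := exists_bul (Γ := Γ) (N := N) _ (Multiset.replicate (N + F + 1) a) rfl
    (by intro x hx; rw [Multiset.eq_of_mem_replicate hx]; exact hH.haA)
    (by
      rw [Multiset.sum_replicate, nsmul_eq_mul, Nat.cast_id]
      have h4 : N + F + 1 ≤ (N + F + 1) * a := Nat.le_mul_of_pos_right _ hH.ha0
      exact ⟨(N + F + 1) * a - N, hH.hF _ (by omega), by omega⟩)
  have h4 := hcon T hT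
  have h5 := h1 T hT
  omega

/-- The omega function as a maximum over admissible descents. -/
theorem omega_greatest (hH : Hyp2 Γ a b F) (N : ℕ) :
    IsGreatest {s : ℕ | ∃ B, Adm Γ a N B ∧ (s = B.card ∨ (a : ℤ) * s = N + ht Γ a N B)}
      (omega Γ N) := by
  constructor
  · obtain ⟨T, hT, hc⟩ := exists_bul_card hH N
    obtain ⟨B, hB, h⟩ := adm_of_bul hH hT
    rw [hc] at h
    exact ⟨B, hB, h⟩
  · rintro s ⟨B, hB, h⟩
    obtain ⟨h1, h2⟩ := le_omega_of_adm hH hB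
    rcases h with h | h
    · rw [h]; exact h1
    · rw [← h] at h2
      have h3 : (s : ℤ) ≤ omega Γ N := le_of_mul_le_mul_left h2 (apos hH)
      exact_mod_cast h3

end Pool.Agent.Helper78.Dis
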