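import Mathlib

/-!
# The omega-primality function of a numerical monoid: definitions
-/

set_option autoImplicit false

namespace Pool.Agent.Helper78.Dis

/-- `x ≼ y` in the submonoid `Γ` of `ℕ`: the difference `y - x` lies in `Γ`. -/
def Dv (Γ : AddSubmonoid ℕ) (x y : ℕ) : Prop := ∃ z ∈ Γ, x + z = y

/-- `x` is an atom (minimal generator) of `Γ`: a nonzero element of `Γ` which is not the sum of two
nonzero elements of `Γ`. -/
def IsAt (Γ : AddSubmonoid ℕ) (x : ℕ) : Prop :=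
  x ∈ Γ ∧ x ≠ 0 ∧ ∀ y ∈ Γ, ∀ z ∈ Γ, y + z = x → y = 0 ∨ z = 0

/-- The omega-primality function: the least `m` such that whenever `n ≼ u₁ + ⋯ + u_t` with atoms
`u_i`, there is a subfamily of at most `m` of the `u_i` whose sum is `≽ n`. -/
noncomputable def omega (Γ : AddSubmonoid ℕ) (n : ℕ) : ℕ :=
  sInf {m : ℕ | ∀ u : Multiset ℕ, (∀ x ∈ u, IsAt Γ x) → Dv Γ n u.sum →
    ∃ T ≤ u, T.card ≤ m ∧ Dv Γ n T.sum}

/-- `f` is quasilinear: `f n = a₁(n) n + a₀(n)` with periodic rational functions `a₁`, `a₀`, where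
`a₁` is not identically zero. -/
def IsQuasilinear (f : ℕ → ℕ) : Prop :=
  ∃ a₁ a₀ : ℕ → ℚ, ∃ p : ℕ, 0 < p ∧ (∀ n, a₁ (n + p) = a₁ n) ∧ (∀ n, a₀ (n + p) = a₀ n) ∧
    (∃ n, a₁ n ≠ 0) ∧ ∀ n, (f n : ℚ) = a₁ n * n + a₀ n

/-- `D` is the dissonance point of `Γ`: the greatest element of `Γ` at which the omega-primality
function differs from the quasilinear function with which it agrees for all large arguments. -/
def IsDis (Γ : AddSubmonoid ℕ) (D : ℕ) : Prop :=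
  ∃ f : ℕ → ℕ, IsQuasilinear f ∧ (∃ n₀, ∀ n, n₀ ≤ n → omega Γ n = f n) ∧
    IsGreatest {n | n ∈ Γ ∧ omega Γ n ≠ f n} D

end Pool.Agent.Helper78.Dis
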