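import Pool.Agent.Helper78.Dis.Core

/-!
# The dissonance point through heights
-/

set_option autoImplicit false

namespace Pool.Agent.Helper78.Dis

variable {Γ : AddSubmonoid ℕ} {a b F : ℕ}

lemma ht_congr {N N' : ℕ} (h : (a : ℤ) ∣ (N : ℤ) - N') (B : Multiset ℕ) :
    ht Γ a N B = ht Γ a N' B := by
  unfold ht
  rw [w_congr (Γ := Γ) (a := a) (z := (B.sum : ℤ) - N) (z' := (B.sum : ℤ) - N')]
  have e : ((B.sum : ℤ) - N) - ((B.sum : ℤ) - N') = -((N : ℤ) - N') := by ring
  rw [e]
  exact (dvd_neg).2 h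

lemma descent_congr {N N' : ℕ} (h : (a : ℤ) ∣ (N : ℤ) - N') (B : Multiset ℕ) :
    Descent Γ a N B ↔ Descent Γ a N' B := by
  unfold Descent
  simp only [ht_congr (Γ := Γ) h]

lemma top_congr {N N' : ℕ} (h : (a : ℤ) ∣ (N : ℤ) - N') : top Γ a N = top Γ a N' := by
  unfold top
  simp only [ht_congr (Γ := Γ) h, descent_congr (Γ := Γ) h]

/-- The quasilinear form of the omega function. -/
noncomputable def lin (Γ : AddSubmonoid ℕ) (a N : ℕ) : ℕ := ((N + top Γ a N) / a).toNat

lemma lin_spec (hH : Hyp2 Γ a b F) (N : ℕ) : (a : ℤ) * lin Γ a N = N + top Γ a N := by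
  obtain ⟨m, hm⟩ := dvd_top hH N
  have ha := apos hH
  have h0 := top_nonneg hH N
  unfold lin
  have e : (N : ℤ) + top Γ a N = a * m := by linarith
  rw [e, Int.mul_ediv_cancel_left _ ha.ne']
  have h1 : 0 ≤ m := by
    have : 0 ≤ (a : ℤ) * m := by
      rw [← e]; positivity
    exact nonneg_of_mul_nonneg_right this ha
  rw [Int.toNat_of_nonneg h1]

lemma lin_quasilinear (hH : Hyp2 Γ a b F) : IsQuasilinear (lin Γ a) := by
  have ha : (a : ℚ) ≠ 0 := by
    have := hH.ha0
    positivity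
  refine ⟨fun _ => 1 / a, fun N => (top Γ a N : ℚ) / a, a, hH.ha0, fun _ => rfl, ?_, ?_, ?_⟩
  · intro N
    have : top Γ a (N + a) = top Γ a N := top_congr ⟨1, by push_cast; ring⟩
    simp only [this]
  · exact ⟨0, one_div_ne_zero ha⟩
  · intro N
    have h := lin_spec hH N
    have h2 : (a : ℚ) * lin Γ a N = N + (top Γ a N : ℚ) := by exact_mod_cast h
    field_simp
    linarith

lemma lin_le_omega_of {N : ℕ} (hH : Hyp2 Γ a b F) {B : Multiset ℕ} (hB : Descent Γ a N B)
    (ht0 : ht Γ a N B = top Γ a N) (h : (a : ℤ) * B.card - N ≤ 0) :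
    lin Γ a N ≤ omega Γ N := by
  have hA : Adm Γ a N B := by
    refine ⟨hB, ?_⟩
    intro x hx
    have h1 := hB.2 x hx
    have h2 := top_nonneg hH N
    linarith
  have h3 := (le_omega_of_adm hH hA).2
  rw [ht0, ← lin_spec hH N] at h3
  have h4 : (lin Γ a N : ℤ) ≤ omega Γ N := le_of_mul_le_mul_left h3 (apos hH)
  exact_mod_cast h4

/-- A maximiser of the height of size at most `F / (b - a)`. -/
lemma exists_small_max (hH : Hyp2 Γ a b F) (N : ℕ) :
    ∃ B, Descent Γ a N B ∧ ht Γ a N B = top Γ a N ∧ B.card ≤ F / (b - a) := by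
  obtain ⟨B, hB, hBt⟩ := top_mem hH N
  have hab := hH.hab
  rcases lt_or_ge (top Γ a N) a with h | h
  · refine ⟨0, descent_nil N, ?_, by simp⟩
    have h0 := le_top hH (descent_nil (Γ := Γ) (a := a) N)
    have e : ht Γ a N 0 = w Γ a (-N) := by
      unfold ht
      simp
    rw [e] at h0 ⊢
    have h1 : (w Γ a (-(N : ℤ)) : ℤ) < a := lt_of_le_of_lt h0 h
    have h2 : w Γ a (-(N : ℤ)) < a := by exact_mod_cast h1
    have h3 : w Γ a (-(N : ℤ)) = 0 := by
      by_contra hne
      have := hH.hmin _ (w_spec hH.toHyp _).1 hne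
      omega
    have h4 : (a : ℤ) ∣ N := by
      have := (w_spec hH.toHyp (-(N : ℤ))).2
      rw [h3] at this
      simpa using this
    have h5 : (a : ℤ) ∣ top Γ a N := by
      have := dvd_sub (dvd_top hH N) h4
      simpa using this
    have h6 := top_nonneg hH N
    have h7 : top Γ a N = 0 := by
      obtain ⟨m, hm⟩ := h5
      rw [hm] at h h6 ⊢
      have ha := apos hH
      have h8 : 0 ≤ m := nonneg_of_mul_nonneg_right h6 ha
      have h9 : m < 1 := by
        by_contra hc
        push Not at hc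
        nlinarith
      have : m = 0 := by omega
      rw [this, mul_zero]
    rw [h3, h7]
    rfl
  · refine ⟨B, hB, hBt, ?_⟩
    rw [Nat.le_div_iff_mul_le (by omega)]
    have h1 := ht_le hH N B hB.1
    rw [hBt] at h1
    have h2 : ((b : ℤ) - a) * B.card ≤ F := by linarith
    have h3 : ((b - a : ℕ) : ℤ) = (b : ℤ) - a := by
      push_cast [Nat.cast_sub hab.le]; ring
    rw [← h3] at h2
    have h4 : (b - a) * B.card ≤ F := by exact_mod_cast h2
    rw [mul_comm]
    exact h4

/-- Agreement beyond `a ⌊F / (b - a)⌋`. -/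
theorem omega_eq_lin (hH : Hyp2 Γ a b F) {N : ℕ} (hN : a * (F / (b - a)) < N) :
    omega Γ N = lin Γ a N := by
  have ha := apos hH
  have hab := hH.hab
  have hNz : (a : ℤ) * (F / (b - a) : ℕ) < N := by exact_mod_cast hN
  apply le_antisymm
  · obtain ⟨B, hB, h⟩ := (omega_greatest hH N).1
    rcases h with h | h
    · by_contra hcon
      push Not at hcon
      rw [h] at hcon
      have h1 : (a : ℤ) * (lin Γ a N + 1) ≤ a * B.card :=
        mul_le_mul_of_nonneg_left (by omega) ha.le
      have h2 := lin_spec hH N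
      have h3 := top_nonneg hH N
      rcases Multiset.empty_or_exists_mem B with h0 | ⟨x, hx⟩
      · rw [h0] at hcon
        simp at hcon
      · have h4 := hB.2 x hx
        have h5 := ht_le hH N (B.erase x) (others_erase hB.1.1 x)
        have e2 : (B.card : ℤ) = (B.erase x).card + 1 := by
          have := Multiset.card_erase_add_one hx
          rw [← this]; push_cast; ring
        have h6 : ((b : ℤ) - a) * (B.erase x).card ≤ F := by linarith
        have h7 : ((b - a : ℕ) : ℤ) = (b : ℤ) - a := by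
          push_cast [Nat.cast_sub hab.le]; ring
        rw [← h7] at h6
        have h8 : (b - a) * (B.erase x).card ≤ F := by exact_mod_cast h6
        have h9 : (B.erase x).card ≤ F / (b - a) := by
          rw [Nat.le_div_iff_mul_le (by omega), mul_comm]
          exact h8
        have h10 : (a : ℤ) * (B.erase x).card ≤ a * (F / (b - a) : ℕ) :=
          mul_le_mul_of_nonneg_left (by exact_mod_cast h9) ha.le
        rw [e2] at h1
        linarith
    · have h1 := le_top hH hB.1
      have h2 := lin_spec hH N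
      have h3 : (a : ℤ) * omega Γ N ≤ a * lin Γ a N := by linarith
      have h4 := le_of_mul_le_mul_left h3 ha
      exact_mod_cast h4
  · obtain ⟨B, hB, hBt, hc⟩ := exists_small_max hH N
    apply lin_le_omega_of hH hB hBt
    have : (a : ℤ) * B.card ≤ a * (F / (b - a) : ℕ) :=
      mul_le_mul_of_nonneg_left (by exact_mod_cast hc) ha.le
    linarith

/-- When `ω` exceeds the quasilinear form. -/
theorem lin_lt_omega_iff (hH : Hyp2 Γ a b F) (N : ℕ) :
    lin Γ a N < omega Γ N ↔ ∃ B : Multiset ℕ, (∀ x ∈ B, IsAt Γ x ∧ x ≠ a) ∧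
      ht Γ a N B ≤ top Γ a N ∧ top Γ a N < a * B.card - N ∧
      ∀ x ∈ B, (a : ℤ) * B.card - N ≤ ht Γ a N (B.erase x) := by
  have ha := apos hH
  constructor
  · intro hlt
    obtain ⟨B, hB, h⟩ := (omega_greatest hH N).1
    have h2 := lin_spec hH N
    have h1 := le_top hH hB.1
    have h3 : (a : ℤ) * lin Γ a N < a * omega Γ N :=
      mul_lt_mul_of_pos_left (by exact_mod_cast hlt) ha
    rcases h with h | h
    · refine ⟨B, hB.1.1, h1, ?_, hB.2⟩
      rw [h] at h3
      linarith
    · exfalso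
      linarith
  · rintro ⟨B, h1, h2, h3, h4⟩
    have hB : Adm Γ a N B := ⟨⟨h1, fun x hx => (h2.trans h3.le).trans (h4 x hx)⟩, h4⟩
    have h5 := (le_omega_of_adm hH hB).1
    refine lt_of_lt_of_le ?_ h5
    have h6 := lin_spec hH N
    have h7 : (a : ℤ) * lin Γ a N < a * B.card := by linarith
    have h8 := lt_of_mul_lt_mul_left h7 ha.le
    exact_mod_cast h8

/-- When `ω` is smaller than the quasilinear form. -/
theorem omega_lt_lin_iff (hH : Hyp2 Γ a b F) (N : ℕ) :
    omega Γ N < lin Γ a N ↔ ∀ B : Multiset ℕ, Adm Γ a N B →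
      (a : ℤ) * B.card - N < top Γ a N ∧ ht Γ a N B < top Γ a N := by
  have ha := apos hH
  have h6 := lin_spec hH N
  constructor
  · intro hlt B hB
    obtain ⟨h1, h2⟩ := le_omega_of_adm hH hB
    have h3 : (a : ℤ) * omega Γ N < a * lin Γ a N :=
      mul_lt_mul_of_pos_left (by exact_mod_cast hlt) ha
    have h4 : (a : ℤ) * B.card ≤ a * omega Γ N :=
      mul_le_mul_of_nonneg_left (by exact_mod_cast h1) ha.le
    constructor <;> linarith
  · intro hall
    obtain ⟨B, hB, h⟩ := (omega_greatest hH N).1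
    obtain ⟨h1, h2⟩ := hall B hB
    have h3 : (a : ℤ) * omega Γ N < a * lin Γ a N := by
      rcases h with h | h
      · rw [h]; linarith
      · rw [h]; linarith
    have h4 := lt_of_mul_lt_mul_left h3 ha.le
    exact_mod_cast h4

/-- The top of the classes: beyond a dissonance of the first kind there is a corner. -/
theorem exists_corner (hH : Hyp2 Γ a b F) {N : ℕ} (hN : N ∈ Γ) (h : lin Γ a N < omega Γ N) :
    ∃ N' ∈ Γ, N ≤ N' ∧ ∃ B, Corner Γ a N' B ∧ (N' : ℤ) = a * (B.card - 1) - top Γ a N' := by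
  have ha := apos hH
  obtain ⟨B, h1, h2, h3, h4⟩ := (lin_lt_omega_iff hH N).1 h
  obtain ⟨m, hm⟩ := dvd_V_top hH N B.card
  have hm0 : 0 < m := by
    have : 0 < (a : ℤ) * m := by linarith
    exact pos_of_mul_pos_right this ha.le
  obtain ⟨e, rfl⟩ : ∃ e : ℕ, m = e + 1 := ⟨(m - 1).toNat, by omega⟩
  have hcg : (a : ℤ) ∣ (N : ℤ) - ((N + a * e : ℕ) : ℤ) := ⟨-e, by push_cast; ring⟩
  refine ⟨N + a * e, Γ.add_mem hN (mul_mem hH.toHyp e), by omega, B, ?_, ?_⟩
  · refine ⟨?_, h1, ?_, ?_⟩
    · rintro rfl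
      have := top_nonneg hH N
      simp at h3
      omega
    · rw [← ht_congr (Γ := Γ) hcg, ← top_congr (Γ := Γ) hcg]
      exact h2
    · intro x hx
      rw [← ht_congr (Γ := Γ) hcg, ← top_congr (Γ := Γ) hcg]
      exact lt_of_lt_of_le h3 (h4 x hx)
  · rw [← top_congr (Γ := Γ) hcg]
    push_cast
    linarith

/-- At `N = a (|B| - 1) - top N` with a corner `B` the function `ω` exceeds the quasilinear form. -/
theorem lin_lt_omega_of_corner (hH : Hyp2 Γ a b F) {N : ℕ} {B : Multiset ℕ}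
    (hB : Corner Γ a N B) (hN : (N : ℤ) = a * (B.card - 1) - top Γ a N) :
    lin Γ a N < omega Γ N := by
  have ha := apos hH
  obtain ⟨h0, h1, h2, h3⟩ := hB
  rw [lin_lt_omega_iff hH]
  have e : (a : ℤ) * B.card - N = a + top Γ a N := by linarith
  refine ⟨B, h1, h2, by linarith, ?_⟩
  intro x hx
  rw [e]
  apply le_of_lt_of_dvd (a := (a : ℤ))
  · rw [← e]
    exact dvd_V_ht hH.toHyp N _ _
  · have := h3 x hx
    linarith

/-- The dissonance set through corners and dissonances of the second kind. -/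
theorem isDis_iff (hH : Hyp2 Γ a b F) (D : ℕ) :
    IsDis Γ D ↔ IsGreatest
      ({N | N ∈ Γ ∧ ∃ B, Corner Γ a N B ∧ (N : ℤ) = a * (B.card - 1) - top Γ a N} ∪
        {N | N ∈ Γ ∧ ∀ B : Multiset ℕ, Adm Γ a N B →
          (a : ℤ) * B.card - N < top Γ a N ∧ ht Γ a N B < top Γ a N}) D := by
  have hstep : IsDis Γ D ↔ IsGreatest {n | n ∈ Γ ∧ omega Γ n ≠ lin Γ a n} D := by
    constructor
    · rintro ⟨f, hf, ⟨n₀, hn₀⟩, hD⟩
      have : f = lin Γ a := by
        apply IsQuasilinear.unique hf (lin_quasilinear hH) (n₀ := max n₀ (a * (F / (b - a)) + 1))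
        intro n hn
        rw [← hn₀ n (le_of_max_le_left hn),
          omega_eq_lin hH (Nat.lt_of_succ_le (le_of_max_le_right hn))]
      rw [← this]
      exact hD
    · intro hD
      exact ⟨lin Γ a, lin_quasilinear hH, ⟨a * (F / (b - a)) + 1,
        fun n hn => omega_eq_lin hH (Nat.lt_of_succ_le hn)⟩, hD⟩
  rw [hstep]
  have hsub : ∀ N, (N ∈ Γ ∧ ∃ B, Corner Γ a N B ∧ (N : ℤ) = a * (B.card - 1) - top Γ a N) ∨
      (N ∈ Γ ∧ ∀ B : Multiset ℕ, Adm Γ a N B →
          (a : ℤ) * B.card - N < top Γ a N ∧ ht Γ a N B < top Γ a N) →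
      N ∈ Γ ∧ omega Γ N ≠ lin Γ a N := by
    rintro N (⟨h1, B, hB, h2⟩ | ⟨h1, h2⟩)
    · exact ⟨h1, (lin_lt_omega_of_corner hH hB h2).ne'⟩
    · exact ⟨h1, ((omega_lt_lin_iff hH N).2 h2).ne⟩
  have hdom : ∀ N, N ∈ Γ ∧ omega Γ N ≠ lin Γ a N → ∃ N', N ≤ N' ∧
      ((N' ∈ Γ ∧ ∃ B, Corner Γ a N' B ∧ (N' : ℤ) = a * (B.card - 1) - top Γ a N') ∨
      (N' ∈ Γ ∧ ∀ B : Multiset ℕ, Adm Γ a N' B →
          (a : ℤ) * B.card - N' < top Γ a N' ∧ ht Γ a N' B < top Γ a N')) := by
    rintro N ⟨h1, h2⟩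
    rcases lt_or_gt_of_ne h2 with h | h
    · exact ⟨N, le_rfl, Or.inr ⟨h1, (omega_lt_lin_iff hH N).1 h⟩⟩
    · obtain ⟨N', k1, k2, k3⟩ := exists_corner hH h1 h
      exact ⟨N', k2, Or.inl ⟨k1, k3⟩⟩
  constructor
  · rintro ⟨hD, hmax⟩
    obtain ⟨N', hN', k⟩ := hdom D hD
    have : N' ≤ D := hmax (hsub N' k)
    have e : N' = D := le_antisymm this hN'
    rw [e] at k
    exact ⟨k, fun N hN => hmax (hsub N hN)⟩
  · rintro ⟨hD, hmax⟩
    refine ⟨hsub D hD, ?_⟩
    intro N hN
    obtain ⟨N', hN', k⟩ := hdom N hN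
    exact hN'.trans (hmax k)

/-- The least element of the class of the second atom. -/
lemma w_b (hH : Hyp2 Γ a b F) : w Γ a b = b := by
  obtain ⟨h1, m, hm⟩ := w_spec hH.toHyp (b : ℤ)
  have hle : w Γ a (b : ℤ) ≤ b := w_le hH.hbA.1 (by simp)
  have ha := apos hH
  have hm0 : 0 ≤ m := by
    have : (0 : ℤ) ≤ (a : ℤ) * m := by
      rw [← hm]
      have : (w Γ a (b : ℤ) : ℤ) ≤ b := by exact_mod_cast hle
      linarith
    exact nonneg_of_mul_nonneg_right this ha
  lift m to ℕ using hm0
  have e : w Γ a (b : ℤ) + a * m = b := by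
    have : ((w Γ a (b : ℤ) : ℤ)) + a * m = b := by linarith
    exact_mod_cast this
  rcases Nat.eq_zero_or_pos m with h0 | h0
  · rw [h0, Nat.mul_zero, Nat.add_zero] at e
    exact e
  · exfalso
    rcases hH.hbA.2.2 _ h1 _ (mul_mem hH.toHyp m) e with h | h
    · rw [h, Nat.zero_add] at e
      obtain ⟨c, rfl⟩ : ∃ c, m = c + 1 := ⟨m - 1, by omega⟩
      rcases hH.hbA.2.2 a hH.ha (a * c) (mul_mem hH.toHyp c) (by rw [← e]; ring) with h2 | h2
      · have := hH.ha0
        omega
      · have hab := hH.hab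
        rw [Nat.mul_succ, h2, Nat.zero_add] at e
        omega
    · have := Nat.mul_pos hH.ha0 h0
      omega

/-- There is a dissonance. -/
theorem exists_dissonance (hH : Hyp2 Γ a b F) : ∃ N, N ∈ Γ ∧ omega Γ N ≠ lin Γ a N := by
  have ha := apos hH
  have hab := hH.hab
  by_cases h0 : top Γ a 0 = 0
  · -- least number of copies of `b` with nonpositive height
    have hex : ∃ t : ℕ, ht Γ a 0 (Multiset.replicate (t + 1) b) ≤ 0 := by
      refine ⟨F + a, ?_⟩
      have h1 := ht_le hH 0 (Multiset.replicate (F + a + 1) b) (by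
        intro x hx
        rw [Multiset.eq_of_mem_replicate hx]
        exact ⟨hH.hbA, hab.ne'⟩)
      rw [Multiset.card_replicate] at h1
      push_cast at h1
      have h2 : (0 : ℤ) ≤ ((b : ℤ) - a - 1) * (F + a + 1) := by
        apply mul_nonneg
        · omega
        · positivity
      linarith
    classical
    set t := Nat.find hex with ht'
    have htl := Nat.find_spec hex
    rw [← ht'] at htl
    have ht1 : 0 < t := by
      rcases Nat.eq_zero_or_pos t with h | h
      · exfalso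
        rw [h] at htl
        have e : ht Γ a 0 (Multiset.replicate (0 + 1) b) = a := by
          unfold ht
          simp only [zero_add, Multiset.replicate_one, Multiset.sum_singleton,
            Multiset.card_singleton, Nat.cast_zero, sub_zero, Nat.cast_one, mul_one]
          rw [w_b hH]
          ring
        rw [e] at htl
        linarith
      · exact h
    have hprev : 0 < ht Γ a 0 (Multiset.replicate t b) := by
      have := Nat.find_min hex (m := t - 1) (by omega)
      rw [not_le] at this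
      have e : t - 1 + 1 = t := by omega
      rwa [e] at this
    have hcg : (a : ℤ) ∣ ((0 : ℕ) : ℤ) - ((a * t : ℕ) : ℤ) := ⟨-t, by push_cast; ring⟩
    refine ⟨a * t, mul_mem hH.toHyp t, ?_⟩
    apply ne_of_gt
    apply lin_lt_omega_of_corner hH (B := Multiset.replicate (t + 1) b)
    · refine ⟨?_, ?_, ?_, ?_⟩
      · rw [Multiset.replicate_succ]
        exact Multiset.cons_ne_zero
      · intro x hx
        rw [Multiset.eq_of_mem_replicate hx]
        exact ⟨hH.hbA, hab.ne'⟩
      · rw [← ht_congr (Γ := Γ) hcg, ← top_congr (Γ := Γ) hcg, h0]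
        exact htl
      · intro x hx
        rw [Multiset.eq_of_mem_replicate hx, Multiset.replicate_succ, Multiset.erase_cons_head,
          ← ht_congr (Γ := Γ) hcg, ← top_congr (Γ := Γ) hcg, h0]
        exact hprev
    · rw [← top_congr (Γ := Γ) hcg, h0, Multiset.card_replicate]
      push_cast
      ring
  · refine ⟨0, Γ.zero_mem, ?_⟩
    rw [omega_zero]
    intro h
    have h1 := lin_spec hH 0
    rw [← h] at h1
    simp at h1
    exact h0 h1.symm

end Pool.Agent.Helper78.Dis
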