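import Pool.Agent.Helper78.Dis.Defs

/-!
# The Apéry function and the height of a multiset of atoms: definitions
-/

set_option autoImplicit false

namespace Pool.Agent.Helper78.Dis

/-- `w z` is the least element of `Γ` congruent to `z` modulo `a`. -/
noncomputable def w (Γ : AddSubmonoid ℕ) (a : ℕ) (z : ℤ) : ℕ :=
  sInf {x : ℕ | x ∈ Γ ∧ (a : ℤ) ∣ z - x}

/-- The height of a multiset `B` with respect to `N`:
`h_N(B) = w(σ(B) - N) - ∑_{x ∈ B} (x - a)`, where `σ(B)` is the sum of `B`. -/
noncomputable def ht (Γ : AddSubmonoid ℕ) (a N : ℕ) (B : Multiset ℕ) : ℤ :=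
  w Γ a ((B.sum : ℤ) - N) - ((B.sum : ℤ) - a * B.card)

/-- A descent: a multiset of atoms other than `a` whose height is at most the height of every
multiset obtained from it by removing one element. -/
def Descent (Γ : AddSubmonoid ℕ) (a N : ℕ) (B : Multiset ℕ) : Prop :=
  (∀ x ∈ B, IsAt Γ x ∧ x ≠ a) ∧ ∀ x ∈ B, ht Γ a N B ≤ ht Γ a N (B.erase x)

/-- `top N` is the greatest height of a descent. -/
noncomputable def top (Γ : AddSubmonoid ℕ) (a N : ℕ) : ℤ :=
  sSup {v : ℤ | ∃ B, Descent Γ a N B ∧ ht Γ a N B = v}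

/-- A descent which is admissible for `N`: the number `a |B| - N` is at most the height of every
multiset obtained from `B` by removing one element. -/
def Adm (Γ : AddSubmonoid ℕ) (a N : ℕ) (B : Multiset ℕ) : Prop :=
  Descent Γ a N B ∧ ∀ x ∈ B, (a : ℤ) * B.card - N ≤ ht Γ a N (B.erase x)

/-- A corner: a nonempty multiset of atoms other than `a` whose height is at most `top N`, whereas
removing any element gives a height greater than `top N`. -/
def Corner (Γ : AddSubmonoid ℕ) (a N : ℕ) (B : Multiset ℕ) : Prop :=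
  B ≠ 0 ∧ (∀ x ∈ B, IsAt Γ x ∧ x ≠ a) ∧ ht Γ a N B ≤ top Γ a N ∧
    ∀ x ∈ B, top Γ a N < ht Γ a N (B.erase x)

end Pool.Agent.Helper78.Dis
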