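import Pool.Agent.Helper78.Dis.Bullet
import Pool.Agent.Helper78.Dis.KDefs

/-!
# Basic facts on the Apéry function and heights
-/

set_option autoImplicit false

namespace Pool.Agent.Helper78.Dis

/-- Standing assumptions: `a` is the least nonzero element of `Γ`, everything above `F` lies in
`Γ`. -/
structure Hyp (Γ : AddSubmonoid ℕ) (a F : ℕ) : Prop where
  ha : a ∈ Γ
  ha0 : 0 < a
  hmin : ∀ x ∈ Γ, x ≠ 0 → a ≤ x
  hF : ∀ x, F < x → x ∈ Γ

variable {Γ : AddSubmonoid ℕ} {a F : ℕ}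

lemma mul_mem (hH : Hyp Γ a F) (m : ℕ) : a * m ∈ Γ := by
  have := Γ.nsmul_mem hH.ha m
  rwa [nsmul_eq_mul, Nat.cast_id, mul_comm] at this

lemma w_spec (hH : Hyp Γ a F) (z : ℤ) : w Γ a z ∈ Γ ∧ (a : ℤ) ∣ z - w Γ a z := by
  have hne : {x : ℕ | x ∈ Γ ∧ (a : ℤ) ∣ z - x}.Nonempty := by
    refine ⟨(z % a).toNat + a * (F + 1), ?_, ?_⟩
    · apply hH.hF
      have h1 : F + 1 ≤ a * (F + 1) := Nat.le_mul_of_pos_left _ hH.ha0
      omega
    · have h1 : ((z % a).toNat : ℤ) = z % a :=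
        Int.toNat_of_nonneg (Int.emod_nonneg _ (by have := hH.ha0; omega))
      push_cast
      rw [h1]
      have h2 := Int.emod_add_mul_ediv z a
      refine ⟨z / a - (F + 1), ?_⟩
      linear_combination -h2
  exact Nat.sInf_mem hne

lemma w_le {x : ℕ} {z : ℤ} (hx : x ∈ Γ) (hd : (a : ℤ) ∣ z - x) : w Γ a z ≤ x :=
  Nat.sInf_le ⟨hx, hd⟩

lemma w_congr {z z' : ℤ} (h : (a : ℤ) ∣ z - z') : w Γ a z = w Γ a z' := by
  unfold w
  congr 1
  ext x
  simp only [Set.mem_ofPred_eq]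
  have : (a : ℤ) ∣ z - x ↔ (a : ℤ) ∣ z' - x := by
    have e : z - x = (z - z') + (z' - x) := by ring
    rw [e]
    exact dvd_add_right h
  rw [this]

/-- Membership in `Γ` in terms of `w`. -/
lemma mem_iff (hH : Hyp Γ a F) {x : ℕ} {z : ℤ} (hd : (a : ℤ) ∣ z - x) :
    x ∈ Γ ↔ w Γ a z ≤ x := by
  constructor
  · intro hx
    exact w_le hx hd
  · intro h
    obtain ⟨h1, h2⟩ := w_spec hH z
    have h3 : (a : ℤ) ∣ (x : ℤ) - w Γ a z := by
      have e : (x : ℤ) - w Γ a z = (z - w Γ a z) - (z - x) := by ring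
      rw [e]
      exact dvd_sub h2 hd
    obtain ⟨m, hm⟩ := h3
    have hm0 : 0 ≤ m := by
      have h4 : (0 : ℤ) ≤ (x : ℤ) - w Γ a z := by
        have : (w Γ a z : ℤ) ≤ x := by exact_mod_cast h
        linarith
      rw [hm] at h4
      have h5 : (0 : ℤ) < a := by exact_mod_cast hH.ha0
      exact nonneg_of_mul_nonneg_right h4 h5
    lift m to ℕ using hm0
    have h6 : x = w Γ a z + a * m := by
      have : (x : ℤ) = w Γ a z + a * m := by linarith
      exact_mod_cast this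
    rw [h6]
    exact Γ.add_mem h1 (mul_mem hH m)

lemma dv_iff (hH : Hyp Γ a F) {N y : ℕ} : Dv Γ N y ↔ (w Γ a ((y : ℤ) - N) : ℤ) ≤ (y : ℤ) - N := by
  constructor
  · rintro ⟨z, hz, rfl⟩
    have := w_le (Γ := Γ) (a := a) (z := (((N + z : ℕ) : ℤ) - N)) hz (by
      have : (((N + z : ℕ) : ℤ) - N) - z = 0 := by push_cast; ring
      rw [this]
      exact dvd_zero _)
    have h2 : ((w Γ a (((N + z : ℕ) : ℤ) - N) : ℕ) : ℤ) ≤ z := by exact_mod_cast this
    refine h2.trans ?_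
    push_cast
    linarith
  · intro h
    have h0 : (0 : ℤ) ≤ (y : ℤ) - N := le_trans (Int.natCast_nonneg _) h
    have hle : N ≤ y := by
      have : (N : ℤ) ≤ y := by linarith
      exact_mod_cast this
    obtain ⟨z, rfl⟩ := Nat.exists_eq_add_of_le hle
    refine ⟨z, ?_, rfl⟩
    have e : (((N + z : ℕ) : ℤ) - N) = z := by push_cast; ring
    rw [e] at h
    have h2 : w Γ a (z : ℤ) ≤ z := by exact_mod_cast h
    exact (mem_iff hH (by simp)).2 h2

lemma w_bound (hH : Hyp Γ a F) (z : ℤ) : w Γ a z ≤ F + a := by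
  by_contra hcon
  push Not at hcon
  obtain ⟨h1, h2⟩ := w_spec hH z
  obtain ⟨y, hy⟩ := Nat.exists_eq_add_of_lt hcon
  have h3 : F + y + 1 ∈ Γ := hH.hF _ (by omega)
  have h4 : (a : ℤ) ∣ z - ((F + y + 1 : ℕ) : ℤ) := by
    have e : z - ((F + y + 1 : ℕ) : ℤ) = (z - w Γ a z) + a := by
      rw [hy]; push_cast; ring
    rw [e]
    exact dvd_add h2 (dvd_refl _)
  have h5 := w_le h3 h4
  have := hH.ha0
  omega

lemma dvd_ht (hH : Hyp Γ a F) (N : ℕ) (B : Multiset ℕ) : (a : ℤ) ∣ ht Γ a N B + N := by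
  obtain ⟨-, m, hm⟩ := w_spec hH ((B.sum : ℤ) - N)
  refine ⟨B.card - m, ?_⟩
  unfold ht
  linear_combination -hm

/-- `N ≼` a sum of `B` and `b₀` copies of `a` in terms of the height. -/
lemma dv_iff_ht (hH : Hyp Γ a F) (N b₀ : ℕ) (B : Multiset ℕ) :
    Dv Γ N (a * b₀ + B.sum) ↔ ht Γ a N B ≤ a * (b₀ + B.card) - N := by
  rw [dv_iff hH]
  have e : w Γ a (((a * b₀ + B.sum : ℕ) : ℤ) - N) = w Γ a ((B.sum : ℤ) - N) := by
    apply w_congr
    refine ⟨b₀, ?_⟩
    push_cast
    ring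
  rw [e]
  unfold ht
  push_cast
  constructor <;> intro h <;> linarith

lemma ht_nil_nonneg (N : ℕ) : 0 ≤ ht Γ a N 0 := by
  unfold ht
  simp

/-- From `a ∣ x - y` and `y < x + a`... : a gap lemma. -/
lemma le_of_lt_of_dvd {a x y : ℤ} (hd : a ∣ x - y) (h : x - a < y) : x ≤ y := by
  obtain ⟨m, hm⟩ := hd
  by_contra hcon
  push Not at hcon
  have ha : 0 < a := by linarith
  have h1 : 0 < a * m := by linarith
  have h2 : 0 < m := pos_of_mul_pos_right h1 ha.le
  have h3 : a * 1 ≤ a * m := mul_le_mul_of_nonneg_left (by omega) ha.le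
  linarith

lemma dvd_ht_sub (hH : Hyp Γ a F) (N : ℕ) (B B' : Multiset ℕ) :
    (a : ℤ) ∣ ht Γ a N B - ht Γ a N B' := by
  have := dvd_sub (dvd_ht hH N B) (dvd_ht hH N B')
  have e : ht Γ a N B + N - (ht Γ a N B' + N) = ht Γ a N B - ht Γ a N B' := by ring
  rwa [e] at this

lemma dvd_V_ht (hH : Hyp Γ a F) (N : ℕ) (t : ℤ) (B : Multiset ℕ) :
    (a : ℤ) ∣ (a * t - N) - ht Γ a N B := by
  have := dvd_ht hH N B
  have e : (a * t - N) - ht Γ a N B = a * t - (ht Γ a N B + N) := by ring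
  rw [e]
  exact dvd_sub (dvd_mul_right _ _) this

/-- Characterisation of the bullets. -/
lemma bul_iff (hH : Hyp Γ a F) (haA : IsAt Γ a) (N b₀ : ℕ) (B : Multiset ℕ)
    (hB : ∀ x ∈ B, IsAt Γ x ∧ x ≠ a) :
    Bul Γ N (Multiset.replicate b₀ a + B) ↔
      ht Γ a N B ≤ a * (b₀ + B.card) - N ∧
      (0 < b₀ → a * (b₀ + B.card) - N ≤ ht Γ a N B) ∧
      ∀ x ∈ B, a * (b₀ + B.card) - N ≤ ht Γ a N (B.erase x) := by
  have hsum : ∀ (c : ℕ) (C : Multiset ℕ), (Multiset.replicate c a + C).sum = a * c + C.sum := by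
    intro c C
    rw [Multiset.sum_add, Multiset.sum_replicate, nsmul_eq_mul, Nat.cast_id, mul_comm]
  have h0 : Dv Γ N (Multiset.replicate b₀ a + B).sum ↔ ht Γ a N B ≤ a * (b₀ + B.card) - N := by
    rw [hsum, dv_iff_ht hH]
  have haB : a ∉ B := fun h => (hB a h).2 rfl
  have h1 : 0 < b₀ → (¬ Dv Γ N ((Multiset.replicate b₀ a + B).erase a).sum ↔
      a * (b₀ + B.card) - N ≤ ht Γ a N B) := by
    intro hb
    obtain ⟨c, rfl⟩ : ∃ c, b₀ = c + 1 := ⟨b₀ - 1, by omega⟩
    have e : (Multiset.replicate (c + 1) a + B).erase a = Multiset.replicate c a + B := by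
      rw [Multiset.replicate_succ, Multiset.cons_add, Multiset.erase_cons_head]
    rw [e, hsum, dv_iff_ht hH, not_le]
    constructor
    · intro h
      apply le_of_lt_of_dvd (dvd_V_ht hH N _ B)
      push_cast
      linarith
    · intro h
      have : (0 : ℤ) < a := by exact_mod_cast hH.ha0
      push_cast at h
      linarith
  have h2 : ∀ x ∈ B, (¬ Dv Γ N ((Multiset.replicate b₀ a + B).erase x).sum ↔
      a * (b₀ + B.card) - N ≤ ht Γ a N (B.erase x)) := by
    intro x hx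
    have e : (Multiset.replicate b₀ a + B).erase x = Multiset.replicate b₀ a + B.erase x := by
      rw [Multiset.erase_add_right_pos _ hx]
    have e2 : (B.card : ℤ) = (B.erase x).card + 1 := by
      have := Multiset.card_erase_add_one hx
      rw [← this]; push_cast; ring
    rw [e, hsum, dv_iff_ht hH, not_le]
    constructor
    · intro h
      apply le_of_lt_of_dvd (dvd_V_ht hH N _ _)
      rw [e2]
      linarith
    · intro h
      have : (0 : ℤ) < a := by exact_mod_cast hH.ha0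
      rw [e2] at h
      linarith
  constructor
  · rintro ⟨-, k1, k2⟩
    refine ⟨h0.1 k1, ?_, ?_⟩
    · intro hb
      exact (h1 hb).1 (k2 a (Multiset.mem_add.2 (Or.inl (Multiset.mem_replicate.2 ⟨by omega, rfl⟩))))
    · intro x hx
      exact (h2 x hx).1 (k2 x (Multiset.mem_add.2 (Or.inr hx)))
  · rintro ⟨k1, k2, k3⟩
    refine ⟨?_, h0.2 k1, ?_⟩
    · intro x hx
      rcases Multiset.mem_add.1 hx with h | h
      · rw [Multiset.eq_of_mem_replicate h]; exact haA
      · exact (hB x h).1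
    · intro x hx
      by_cases hxB : x ∈ B
      · exact (h2 x hxB).2 (k3 x hxB)
      · rcases Multiset.mem_add.1 hx with h | h
        · have hb : 0 < b₀ := by
            have := (Multiset.mem_replicate.1 h).1
            omega
          rw [Multiset.eq_of_mem_replicate h]
          exact (h1 hb).2 (k2 hb)
        · exact absurd h hxB

end Pool.Agent.Helper78.Dis
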